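import Mathlib

/-!
# Unions of length sets in reduced finitary power monoids: definitions

General definitions (two-sided divisibility, irreducibles, factorizations, length sets, unions of
length sets) for an arbitrary monoid, the reduced finitary power monoid of a monoid, and intervals
of natural numbers.
-/

open scoped Pointwise

namespace Pool.Agent.R794.PM

universe u

section General

variable {M : Type u} [Monoid M]

/-- `x` divides `y`: `y ∈ M x M`. -/
def Divides (x y : M) : Prop := ∃ a b : M, y = a * x * b

/-- `x` is a unit-divisor: it divides `1`. -/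
def UnitDivisor (x : M) : Prop := Divides x 1

/-- `x` is a proper divisor of `y`. -/
def ProperDivisor (x y : M) : Prop := Divides x y ∧ ¬ Divides y x

/-- `a` is an irreducible: a non-unit-divisor that is not a product of two proper divisors
of `a` that are not unit-divisors. -/
def Irred (a : M) : Prop :=
  ¬ UnitDivisor a ∧
    ¬ ∃ b c : M, a = b * c ∧ (ProperDivisor b a ∧ ¬ UnitDivisor b) ∧
      (ProperDivisor c a ∧ ¬ UnitDivisor c)

/-- A factorization of `x`: a word of irreducibles with product `x`. -/
def IsFactorization (w : List M) (x : M) : Prop := (∀ a ∈ w, Irred a) ∧ w.prod = x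

/-- The length set of `x`. -/
def lengthSet (x : M) : Set ℕ := {m | ∃ w : List M, IsFactorization w x ∧ w.length = m}

variable (M) in
/-- The union of all length sets that contain `k`. -/
def unionLengths (k : ℕ) : Set ℕ := {m | ∃ x : M, k ∈ lengthSet x ∧ m ∈ lengthSet x}

theorem divides_refl (x : M) : Divides x x := ⟨1, 1, by simp⟩

theorem Divides.trans {x y z : M} (h₁ : Divides x y) (h₂ : Divides y z) : Divides x z := by
  obtain ⟨a, b, rfl⟩ := h₁
  obtain ⟨c, d, rfl⟩ := h₂
  exact ⟨c * a, b * d, by simp [mul_assoc]⟩

theorem divides_prod_of_mem {w : List M} {a : M} (h : a ∈ w) : Divides a w.prod := by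
  obtain ⟨s, t, rfl⟩ := List.append_of_mem h
  exact ⟨s.prod, t.prod, by simp [mul_assoc]⟩

/-- The stated convention at the identity holds: its length set is `{0}`. -/
theorem lengthSet_one : lengthSet (1 : M) = {0} := by
  ext m
  constructor
  · rintro ⟨w, ⟨hw, hp⟩, rfl⟩
    rcases w with _ | ⟨a, w⟩
    · simp
    · exfalso
      refine (hw a (by simp)).1 ?_
      have := divides_prod_of_mem (w := a :: w) (a := a) (by simp)
      rw [hp] at this
      exact this
  · rintro rfl
    exact ⟨[], ⟨by simp, by simp⟩, rfl⟩

/-- The stated convention at the other unit-divisors holds: their length sets are empty. -/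
theorem lengthSet_unitDivisor {x : M} (hx : UnitDivisor x) (h1 : x ≠ 1) :
    lengthSet x = ∅ := by
  ext m
  simp only [Set.mem_empty_iff_false, iff_false]
  rintro ⟨w, ⟨hw, hp⟩, rfl⟩
  rcases w with _ | ⟨a, w⟩
  · exact h1 (by simpa using hp.symm)
  · refine (hw a (by simp)).1 ?_
    have := divides_prod_of_mem (w := a :: w) (a := a) (by simp)
    rw [hp] at this
    exact this.trans hx

end General

/-- A set of natural numbers is an interval if it is `{x | a ≤ x ≤ b}` with `a, b ∈ ℕ ∪ {∞}`. -/
def IsInterval (S : Set ℕ) : Prop := ∃ a b : ℕ∞, S = {x : ℕ | a ≤ (x : ℕ∞) ∧ (x : ℕ∞) ≤ b}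

/-- The reduced finitary power monoid of `H`: the finite subsets of `H` containing `1`, with
setwise multiplication. -/
def powerMonoid (H : Type u) [Monoid H] : Submonoid (Set H) where
  carrier := {X | X.Finite ∧ (1 : H) ∈ X}
  mul_mem' := fun {a b} ha hb => ⟨ha.1.mul hb.1, by simpa using Set.mul_mem_mul ha.2 hb.2⟩
  one_mem' := ⟨Set.finite_one, Set.mem_one.2 rfl⟩

end Pool.Agent.R794.PM
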