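import Pool.Agent.R794.PM.Pow

/-!
# Groups of exponent five
-/

open scoped Pointwise

namespace Pool.Agent.R794.PM

universe u

theorem comb (S W0 W1 : ℕ → Prop)
    (hS : ∀ s, S s → s = 0 ∨ s = 1 ∨ s = 2) (hs0 : ∃ s, S s ∧ s ≠ 0)
    (hW0 : ∀ w, W0 w → w = 0 ∨ w = 1 ∨ w = 2)
    (h0 : ∀ s w, S s → W0 w → ((s + w) % 5 = 0 ∨ (s + w) % 5 = 1 ∨ (s + w) % 5 = 2))
    (h0c : ∃ s w, S s ∧ W0 w ∧ (s + w) % 5 = 1)
    (hW1 : ∀ w, W1 w → w = 0 ∨ w = 2 ∨ w = 4)
    (h1 : ∀ s w, S s → W1 w → ((s + w) % 5 = 0 ∨ (s + w) % 5 = 2 ∨ (s + w) % 5 = 4))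
    (h1c : ∃ s w, S s ∧ W1 w ∧ (s + w) % 5 = 2) : False := by
  by_cases hS1 : S 1
  · obtain ⟨s, w, hs, hw, hsw⟩ := h1c
    have e1 := h1 1 w hS1 hw
    have e2 := hW1 w hw
    have e3 := hS s hs
    omega
  · obtain ⟨s0, hs0, hs0'⟩ := hs0
    have hs02 : s0 = 2 := by
      rcases hS s0 hs0 with h | h | h
      · exact absurd h hs0'
      · rw [h] at hs0; exact absurd hs0 hS1
      · exact h
    subst hs02
    obtain ⟨s, w, hs, hw, hsw⟩ := h0c
    have e2 := hW0 w hw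
    have e3 : s = 0 ∨ s = 2 := by
      rcases hS s hs with h | h | h
      · exact Or.inl h
      · rw [h] at hs; exact absurd hs hS1
      · exact Or.inr h
    have hw1 : w = 1 := by omega
    subst hw1
    have := h0 2 1 hs0 hw
    omega

section Group

variable {G : Type u} [Group G]

theorem SI_inv {A : Set G} (h : SI A) : SI A⁻¹ := by
  constructor
  · intro hA
    apply h.1
    rw [← inv_inv A, hA, inv_one]
  · intro U V hU hV hUV
    have : A = V⁻¹ * U⁻¹ := by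
      rw [← mul_inv_rev, ← hUV, inv_inv]
    rcases h.2 V⁻¹ U⁻¹ (by simpa using hV) (by simpa using hU) this with h | h
    · right; rw [← h, inv_inv]
    · left; rw [← h, inv_inv]

theorem F1_inv {A : Set G} (h : F1 A) : F1 A⁻¹ := ⟨h.1.inv, by simpa using h.2⟩

/-- The set `{1, x, x²} ∪ {y, y x², y x⁴}`. -/
def A5 (x y : G) : Set G :=
  {h | ∃ i : ℕ, ((i % 5 = 0 ∨ i % 5 = 1 ∨ i % 5 = 2) ∧ h = x ^ i) ∨
    ((i % 5 = 0 ∨ i % 5 = 2 ∨ i % 5 = 4) ∧ h = y * x ^ i)}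

variable (h5 : ∀ g : G, g ^ 5 = 1) {x y : G} (hx : x ≠ 1)

include h5 in
theorem pow_mod5 (g : G) (i : ℕ) : g ^ i = g ^ (i % 5) := by
  conv_lhs => rw [← Nat.div_add_mod i 5]
  rw [pow_add, pow_mul, h5]
  simp

include h5 hx in
theorem inj5 {i j : ℕ} (h : x ^ i = x ^ j) : i % 5 = j % 5 := by
  have : Fact (Nat.Prime 5) := ⟨by norm_num⟩
  have ho : orderOf x = 5 := orderOf_eq_prime (h5 x) hx
  rw [pow_inj_mod, ho] at h
  exact h

variable (hy : ∀ i : ℕ, y ≠ x ^ i)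

include h5 in
theorem pow_inv5 (g : G) (i : ℕ) : (g ^ i)⁻¹ = g ^ (4 * i) := by
  rw [inv_eq_iff_mul_eq_one, ← pow_add]
  have : i + 4 * i = 5 * i := by ring
  rw [this, pow_mul, h5, one_pow]

include h5 hy in
theorem yx_ne (i j : ℕ) : y * x ^ i ≠ x ^ j := by
  intro h
  apply hy (j + 4 * i)
  rw [pow_add, ← pow_inv5 h5, ← h]
  group

include h5 hx hy in
theorem pow_mem_A5 {i : ℕ} (h : x ^ i ∈ A5 x y) : i % 5 = 0 ∨ i % 5 = 1 ∨ i % 5 = 2 := by
  obtain ⟨j, ⟨hj, e⟩ | ⟨hj, e⟩⟩ := h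
  · have := inj5 h5 hx e
    omega
  · exact absurd e.symm (yx_ne h5 hy j i)

include h5 hx hy in
theorem ypow_mem_A5 {i : ℕ} (h : y * x ^ i ∈ A5 x y) : i % 5 = 0 ∨ i % 5 = 2 ∨ i % 5 = 4 := by
  obtain ⟨j, ⟨hj, e⟩ | ⟨hj, e⟩⟩ := h
  · exact absurd e (yx_ne h5 hy i j)
  · have := inj5 h5 hx (mul_left_cancel e)
    omega

include h5 hy in
theorem yy_not_mem (i j : ℕ) : (y * x ^ i) * (y * x ^ j) ∉ A5 x y := by
  rintro ⟨l, ⟨hl, e⟩ | ⟨hl, e⟩⟩
  · -- `(y x^i)^2` is a power of `x`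
    have h1 : (y * x ^ i) ^ 2 = x ^ (l + 4 * j + i) := by
      rw [pow_add, pow_add, ← pow_inv5 h5, ← e, pow_two]
      group
    have h2 : y * x ^ i = x ^ ((l + 4 * j + i) * 3) := by
      rw [pow_mul, ← h1, ← pow_mul]
      have : (y * x ^ i) ^ (2 * 3) = (y * x ^ i) ^ 5 * (y * x ^ i) := by
        rw [← pow_succ]
      rw [this, h5, one_mul]
    exact yx_ne h5 hy _ _ h2
  · have h1 : x ^ i * (y * x ^ j) = x ^ l := by
      rw [mul_assoc] at e
      exact mul_left_cancel e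
    have h2 : y * x ^ j = x ^ (4 * i + l) := by
      rw [pow_add, ← pow_inv5 h5, ← h1]
      group
    exact yx_ne h5 hy _ _ h2

include h5 in
/-- If conjugation by `y` maps `x ^ l`, `l = 1, 2`, to a power of `x`, then `x`, `y` commute. -/
theorem commute_of_conj {l m : ℕ} (hl : l = 1 ∨ l = 2) (h : x ^ l * y = y * x ^ m) :
    x * y = y * x := by
  -- get `x * y = y * x ^ t`
  obtain ⟨t, ht⟩ : ∃ t : ℕ, x * y = y * x ^ t := by
    rcases hl with rfl | rfl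
    · exact ⟨m, by simpa using h⟩
    · refine ⟨m * 3, ?_⟩
      have hpow : ∀ k : ℕ, (x ^ 2) ^ k * y = y * (x ^ m) ^ k := by
        intro k
        induction k with
        | zero => simp
        | succ k ih =>
          rw [pow_succ (x ^ 2) k, pow_succ (x ^ m) k, mul_assoc, h, ← mul_assoc, ih, mul_assoc]
      have := hpow 3
      rw [← pow_mul, ← pow_mul] at this
      rw [← this]
      congr 1
      have h6 : x ^ (2 * 3) = x ^ 5 * x := by rw [← pow_succ]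
      rw [h6, h5, one_mul]
  have hk : ∀ k s : ℕ, x ^ s * y ^ k = y ^ k * x ^ (s * t ^ k) := by
    intro k
    induction k with
    | zero => intro s; simp
    | succ k ih =>
      intro s
      have hs : ∀ s : ℕ, x ^ s * y = y * x ^ (s * t) := by
        intro s
        induction s with
        | zero => simp
        | succ s ih2 =>
          rw [pow_succ, mul_assoc, ht, ← mul_assoc, ih2, mul_assoc, ← pow_add]
          congr 2
          ring
      rw [pow_succ, ← mul_assoc, ih, mul_assoc, hs, ← mul_assoc]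
      congr 2
      ring
  have h1 := hk 5 1
  rw [h5, mul_one, one_mul, pow_one, one_mul] at h1
  rw [ht]
  congr 1
  conv_rhs => rw [h1]
  rw [pow_mod5 h5 x t, pow_mod5 h5 x (t ^ 5)]
  congr 1
  have ht5 : t % 5 = 0 ∨ t % 5 = 1 ∨ t % 5 = 2 ∨ t % 5 = 3 ∨ t % 5 = 4 := by omega
  rcases ht5 with h | h | h | h | h <;> simp [Nat.pow_mod, h]

theorem A5_F1 (h5 : ∀ g : G, g ^ 5 = 1) : F1 (A5 x y) := by
  constructor
  · apply (((Set.finite_Iic 4).image (fun i => x ^ i)).union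
      ((Set.finite_Iic 4).image (fun i => y * x ^ i))).subset
    rintro h ⟨i, ⟨hi, rfl⟩ | ⟨hi, rfl⟩⟩
    · left
      exact ⟨i % 5, by simp only [Set.mem_Iic]; omega, (pow_mod5 h5 x i).symm⟩
    · right
      refine ⟨i % 5, by simp only [Set.mem_Iic]; omega, ?_⟩
      simp only
      rw [← pow_mod5 h5 x i]
  · exact ⟨0, Or.inl ⟨Or.inl rfl, by simp⟩⟩

include h5 hx hy in
theorem A5_SI : SI (A5 x y) := by
  have hx2 : x ^ 2 ≠ 1 := by
    intro h
    have := inj5 h5 hx (i := 2) (j := 0) (by simpa using h)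
    omega
  have hxA : x ∈ A5 x y := ⟨1, Or.inl ⟨by omega, by simp⟩⟩
  have hy0 : y ∈ A5 x y := ⟨0, Or.inr ⟨by omega, by simp⟩⟩
  have hy2 : y * x ^ 2 ∈ A5 x y := ⟨2, Or.inr ⟨by omega, rfl⟩⟩
  constructor
  · intro h
    rw [h] at hxA
    exact hx (by simpa using hxA)
  intro U V hU hV hUV
  by_contra hcon
  push Not at hcon
  have hUA : U ⊆ A5 x y := by rw [hUV]; exact subset_mul_of_one_right hV
  have hVA : V ⊆ A5 x y := by rw [hUV]; exact subset_mul_of_one_left hU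
  have hUV' : ∀ u ∈ U, ∀ v ∈ V, u * v ∈ A5 x y := by
    intro u hu v hv
    rw [hUV]
    exact Set.mul_mem_mul hu hv
  have exU : ∃ u ∈ U, u ≠ 1 := by
    by_contra hno
    push Not at hno
    have : U = 1 := by
      apply Set.Subset.antisymm
      · intro u hu; simpa using hno u hu
      · intro u hu
        have : u = 1 := by simpa using hu
        rw [this]; exact hU
    rw [this, one_mul] at hUV
    exact hcon.2 hUV.symm
  have exV : ∃ v ∈ V, v ≠ 1 := by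
    by_contra hno
    push Not at hno
    have : V = 1 := by
      apply Set.Subset.antisymm
      · intro u hu; simpa using hno u hu
      · intro u hu
        have : u = 1 := by simpa using hu
        rw [this]; exact hV
    rw [this, mul_one] at hUV
    exact hcon.1 hUV.symm
  -- normal forms
  have nf : ∀ h ∈ A5 x y, (∃ i : ℕ, (i = 0 ∨ i = 1 ∨ i = 2) ∧ h = x ^ i) ∨
      (∃ i : ℕ, (i = 0 ∨ i = 2 ∨ i = 4) ∧ h = y * x ^ i) := by
    rintro h ⟨i, ⟨hi, rfl⟩ | ⟨hi, rfl⟩⟩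
    · exact Or.inl ⟨i % 5, hi, pow_mod5 h5 x i⟩
    · exact Or.inr ⟨i % 5, hi, by rw [← pow_mod5 h5 x i]⟩
  by_cases hUy : ∃ i : ℕ, y * x ^ i ∈ U
  · -- `V` consists of powers of `x`
    obtain ⟨i0, hi0⟩ := hUy
    have hVx : ∀ v ∈ V, ∃ i : ℕ, (i = 0 ∨ i = 1 ∨ i = 2) ∧ v = x ^ i := by
      intro v hv
      rcases nf v (hVA hv) with h | ⟨j, hj, rfl⟩
      · exact h
      · exact absurd (hUV' _ hi0 _ hv) (yy_not_mem h5 hy i0 j)
    refine comb (fun s => (s = 0 ∨ s = 1 ∨ s = 2) ∧ x ^ s ∈ V)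
      (fun w => (w = 0 ∨ w = 1 ∨ w = 2) ∧ x ^ w ∈ U)
      (fun w => (w = 0 ∨ w = 2 ∨ w = 4) ∧ y * x ^ w ∈ U) (fun s hs => hs.1) ?_
      (fun s hs => hs.1) ?_ ?_ (fun s hs => hs.1) ?_ ?_
    · obtain ⟨v, hv, hv1⟩ := exV
      obtain ⟨i, hi, rfl⟩ := hVx v hv
      refine ⟨i, ⟨hi, hv⟩, ?_⟩
      rintro rfl
      simp at hv1
    · intro s w hs hw
      have := hUV' _ hw.2 _ hs.2
      rw [← pow_add] at this
      have := pow_mem_A5 h5 hx hy this
      rwa [add_comm] at this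
    · have : x ∈ U * V := by rw [← hUV]; exact hxA
      obtain ⟨u, hu, v, hv, huv⟩ := this
      obtain ⟨s, hs, rfl⟩ := hVx v hv
      rcases nf u (hUA hu) with ⟨i, hi, rfl⟩ | ⟨j, hj, rfl⟩
      · refine ⟨s, i, ⟨hs, hv⟩, ⟨hi, hu⟩, ?_⟩
        simp only [← pow_add] at huv
        have := inj5 h5 hx (i := i + s) (j := 1) (by simpa using huv)
        omega
      · exfalso
        simp only [mul_assoc, ← pow_add] at huv
        exact yx_ne h5 hy (j + s) 1 (by simpa using huv)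
    · intro s w hs hw
      have := hUV' _ hw.2 _ hs.2
      rw [mul_assoc, ← pow_add] at this
      have := ypow_mem_A5 h5 hx hy this
      rwa [add_comm] at this
    · have : y * x ^ 2 ∈ U * V := by rw [← hUV]; exact hy2
      obtain ⟨u, hu, v, hv, huv⟩ := this
      obtain ⟨s, hs, rfl⟩ := hVx v hv
      rcases nf u (hUA hu) with ⟨i, hi, rfl⟩ | ⟨j, hj, rfl⟩
      · exfalso
        simp only [← pow_add] at huv
        exact yx_ne h5 hy 2 _ huv.symm
      · refine ⟨s, j, ⟨hs, hv⟩, ⟨hj, hu⟩, ?_⟩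
        simp only [mul_assoc, ← pow_add] at huv
        have := inj5 h5 hx (mul_left_cancel huv)
        omega
  · -- `U` consists of powers of `x`
    push Not at hUy
    have hUx : ∀ v ∈ U, ∃ i : ℕ, (i = 0 ∨ i = 1 ∨ i = 2) ∧ v = x ^ i := by
      intro v hv
      rcases nf v (hUA hv) with h | ⟨j, hj, rfl⟩
      · exact h
      · exact absurd hv (hUy j)
    obtain ⟨u0, hu0, hu01⟩ := exU
    obtain ⟨l, hl, rfl⟩ := hUx u0 hu0
    have hl' : l = 1 ∨ l = 2 := by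
      rcases hl with rfl | h | h
      · simp at hu01
      · exact Or.inl h
      · exact Or.inr h
    -- there is a `y`-type element in `V`
    obtain ⟨j, hj, hjV⟩ : ∃ j : ℕ, (j = 0 ∨ j = 2 ∨ j = 4) ∧ y * x ^ j ∈ V := by
      have : y ∈ U * V := by rw [← hUV]; exact hy0
      obtain ⟨u, hu, v, hv, huv⟩ := this
      obtain ⟨s, hs, rfl⟩ := hUx u hu
      rcases nf v (hVA hv) with ⟨i, hi, rfl⟩ | ⟨j, hj, rfl⟩
      · exfalso
        simp only [← pow_add] at huv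
        exact hy _ huv.symm
      · exact ⟨j, hj, hv⟩
    have hcomm : x * y = y * x := by
      have h1 := hUV' _ hu0 _ hjV
      rcases nf _ h1 with ⟨i, hi, e⟩ | ⟨i, hi, e⟩
      · exfalso
        have h2 : y * x ^ j = x ^ (4 * l + i) := by
          rw [pow_add, ← pow_inv5 h5, ← e]
          group
        exact yx_ne h5 hy _ _ h2
      · refine commute_of_conj h5 (m := i + 4 * j) hl' ?_
        rw [pow_add, ← pow_inv5 h5, ← mul_assoc, ← e]
        group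
    have hcommp : ∀ s : ℕ, x ^ s * y = y * x ^ s := by
      intro s
      exact (Commute.pow_left hcomm s)
    refine comb (fun s => (s = 0 ∨ s = 1 ∨ s = 2) ∧ x ^ s ∈ U)
      (fun w => (w = 0 ∨ w = 1 ∨ w = 2) ∧ x ^ w ∈ V)
      (fun w => (w = 0 ∨ w = 2 ∨ w = 4) ∧ y * x ^ w ∈ V) (fun s hs => hs.1) ?_
      (fun s hs => hs.1) ?_ ?_ (fun s hs => hs.1) ?_ ?_
    · refine ⟨l, ⟨hl, hu0⟩, ?_⟩
      omega
    · intro s w hs hw
      have := hUV' _ hs.2 _ hw.2
      rw [← pow_add] at this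
      exact pow_mem_A5 h5 hx hy this
    · have : x ∈ U * V := by rw [← hUV]; exact hxA
      obtain ⟨u, hu, v, hv, huv⟩ := this
      obtain ⟨s, hs, rfl⟩ := hUx u hu
      rcases nf v (hVA hv) with ⟨i, hi, rfl⟩ | ⟨j, hj, rfl⟩
      · refine ⟨s, i, ⟨hs, hu⟩, ⟨hi, hv⟩, ?_⟩
        simp only [← pow_add] at huv
        have := inj5 h5 hx (i := s + i) (j := 1) (by simpa using huv)
        omega
      · exfalso
        simp only [← mul_assoc, hcommp] at huv
        simp only [mul_assoc, ← pow_add] at huv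
        exact yx_ne h5 hy (s + j) 1 (by simpa using huv)
    · intro s w hs hw
      have := hUV' _ hs.2 _ hw.2
      rw [← mul_assoc, hcommp, mul_assoc, ← pow_add] at this
      exact ypow_mem_A5 h5 hx hy this
    · have : y * x ^ 2 ∈ U * V := by rw [← hUV]; exact hy2
      obtain ⟨u, hu, v, hv, huv⟩ := this
      obtain ⟨s, hs, rfl⟩ := hUx u hu
      rcases nf v (hVA hv) with ⟨i, hi, rfl⟩ | ⟨j, hj, rfl⟩
      · exfalso
        simp only [← pow_add] at huv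
        exact yx_ne h5 hy 2 _ huv.symm
      · refine ⟨s, j, ⟨hs, hu⟩, ⟨hj, hv⟩, ?_⟩
        simp only [← mul_assoc, hcommp] at huv
        simp only [mul_assoc, ← pow_add] at huv
        have := inj5 h5 hx (mul_left_cancel huv)
        omega

include h5 in
theorem A5_absorb (j : ℕ) : A5 x y * ({1, x} : Set G) ^ j * (A5 x y)⁻¹ = A5 x y * (A5 x y)⁻¹ := by
  have hpair : ∀ j : ℕ, ∀ c ∈ ({1, x} : Set G) ^ j, ∃ t : ℕ, c = x ^ t := by
    intro j
    induction j with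
    | zero => intro c hc; exact ⟨0, by simpa using hc⟩
    | succ j ih =>
      intro c hc
      rw [pow_succ] at hc
      obtain ⟨d, hd, e, (rfl | rfl), rfl⟩ := hc
      · obtain ⟨t, rfl⟩ := ih d hd
        exact ⟨t, by simp⟩
      · obtain ⟨t, rfl⟩ := ih d hd
        exact ⟨t + 1, by simp [pow_succ]⟩
  have hone : (1 : G) ∈ ({1, x} : Set G) ^ j := by
    induction j with
    | zero => simp
    | succ j ih => rw [pow_succ]; exact ⟨1, ih, 1, by simp, by simp⟩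
  apply Set.Subset.antisymm
  · rintro _ ⟨_, ⟨a, ha, c, hc, rfl⟩, b', hb', rfl⟩
    obtain ⟨t, rfl⟩ := hpair j c hc
    obtain ⟨b, rfl⟩ : ∃ b, b⁻¹ = b' := ⟨b'⁻¹, by simp⟩
    have hb : b ∈ A5 x y := by simpa using hb'
    -- it suffices to find `a'`, `b'` with the same type
    have key : ∀ s : ℕ, ∀ (p q : ℕ → Prop),
        (p = (fun i => i % 5 = 0 ∨ i % 5 = 1 ∨ i % 5 = 2) ∨
          p = (fun i => i % 5 = 0 ∨ i % 5 = 2 ∨ i % 5 = 4)) →
        (q = (fun i => i % 5 = 0 ∨ i % 5 = 1 ∨ i % 5 = 2) ∨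
          q = (fun i => i % 5 = 0 ∨ i % 5 = 2 ∨ i % 5 = 4)) →
        ∃ i k : ℕ, p i ∧ q k ∧ (s + k) % 5 = i % 5 := by
      intro s p q hp hq
      have hs : s % 5 = 0 ∨ s % 5 = 1 ∨ s % 5 = 2 ∨ s % 5 = 3 ∨ s % 5 = 4 := by omega
      rcases hp with rfl | rfl <;> rcases hq with rfl | rfl <;> rcases hs with h | h | h | h | h
      · exact ⟨0, 0, by simp, by simp, by omega⟩
      · exact ⟨1, 0, by simp, by simp, by omega⟩
      · exact ⟨2, 0, by simp, by simp, by omega⟩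
      · exact ⟨0, 2, by simp, by simp, by omega⟩
      · exact ⟨0, 1, by simp, by simp, by omega⟩
      · exact ⟨0, 0, by simp, by simp, by omega⟩
      · exact ⟨1, 0, by simp, by simp, by omega⟩
      · exact ⟨2, 0, by simp, by simp, by omega⟩
      · exact ⟨0, 2, by simp, by simp, by omega⟩
      · exact ⟨1, 2, by simp, by simp, by omega⟩
      · exact ⟨0, 0, by simp, by simp, by omega⟩
      · exact ⟨2, 1, by simp, by simp, by omega⟩
      · exact ⟨2, 0, by simp, by simp, by omega⟩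
      · exact ⟨4, 1, by simp, by simp, by omega⟩
      · exact ⟨4, 0, by simp, by simp, by omega⟩
      · exact ⟨0, 0, by simp, by simp, by omega⟩
      · exact ⟨0, 4, by simp, by simp, by omega⟩
      · exact ⟨2, 0, by simp, by simp, by omega⟩
      · exact ⟨0, 2, by simp, by simp, by omega⟩
      · exact ⟨4, 0, by simp, by simp, by omega⟩
    have eqn : ∀ s i k : ℕ, (s + k) % 5 = i % 5 → x ^ s = x ^ i * (x ^ k)⁻¹ := by
      intro s i k h
      rw [eq_mul_inv_iff_mul_eq, ← pow_add, pow_mod5 h5 x (s + k), h, ← pow_mod5 h5 x i]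
    obtain ⟨i, ⟨hi, rfl⟩ | ⟨hi, rfl⟩⟩ := ha <;> obtain ⟨k, ⟨hk, rfl⟩ | ⟨hk, rfl⟩⟩ := hb
    · obtain ⟨i', k', hi', hk', e⟩ := key (i + t + 4 * k) _ _ (Or.inl rfl) (Or.inl rfl)
      refine ⟨x ^ i', ⟨i', Or.inl ⟨hi', rfl⟩⟩, (x ^ k')⁻¹, ?_, ?_⟩
      · rw [Set.inv_mem_inv]; exact ⟨k', Or.inl ⟨hk', rfl⟩⟩
      · simp only
        rw [← eqn _ _ _ e, pow_add, pow_add, ← pow_inv5 h5 x k]
    · obtain ⟨i', k', hi', hk', e⟩ := key (i + t + 4 * k) _ _ (Or.inl rfl) (Or.inr rfl)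
      refine ⟨x ^ i', ⟨i', Or.inl ⟨hi', rfl⟩⟩, (y * x ^ k')⁻¹, ?_, ?_⟩
      · rw [Set.inv_mem_inv]; exact ⟨k', Or.inr ⟨hk', rfl⟩⟩
      · simp only
        rw [mul_inv_rev, mul_inv_rev, ← mul_assoc, ← mul_assoc, ← eqn _ _ _ e, pow_add, pow_add,
          ← pow_inv5 h5 x k]
    · obtain ⟨i', k', hi', hk', e⟩ := key (i + t + 4 * k) _ _ (Or.inr rfl) (Or.inl rfl)
      refine ⟨y * x ^ i', ⟨i', Or.inr ⟨hi', rfl⟩⟩, (x ^ k')⁻¹, ?_, ?_⟩
      · rw [Set.inv_mem_inv]; exact ⟨k', Or.inl ⟨hk', rfl⟩⟩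
      · simp only
        rw [mul_assoc, ← eqn _ _ _ e, pow_add, pow_add, ← pow_inv5 h5 x k]
        simp only [mul_assoc]
    · obtain ⟨i', k', hi', hk', e⟩ := key (i + t + 4 * k) _ _ (Or.inr rfl) (Or.inr rfl)
      refine ⟨y * x ^ i', ⟨i', Or.inr ⟨hi', rfl⟩⟩, (y * x ^ k')⁻¹, ?_, ?_⟩
      · rw [Set.inv_mem_inv]; exact ⟨k', Or.inr ⟨hk', rfl⟩⟩
      · simp only
        have e2 := eqn _ _ _ e
        rw [pow_add, pow_add, ← pow_inv5 h5 x k] at e2
        calc y * x ^ i' * (y * x ^ k')⁻¹ = y * (x ^ i' * (x ^ k')⁻¹) * y⁻¹ := by group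
          _ = y * (x ^ i * x ^ t * (x ^ k)⁻¹) * y⁻¹ := by rw [← e2]
          _ = y * x ^ i * x ^ t * (y * x ^ k)⁻¹ := by group
  · rintro _ ⟨a, ha, b, hb, rfl⟩
    refine ⟨a * 1, ⟨a, ha, 1, hone, rfl⟩, b, hb, ?_⟩
    simp

include h5 hx hy in
theorem US_of_five {k m : ℕ} (hk : 2 ≤ k) (hm : 2 ≤ m) : m ∈ US G k := by
  have key : ∀ m, 2 ≤ m → m ∈ SL (A5 x y * (A5 x y)⁻¹) := by
    intro m hm
    have h1 := SL_mul (SL_mul (SL_single (A5_SI h5 hx hy) (A5_F1 h5))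
      (SL_pow (SI_pair hx) (F1_pair x) (m - 2))) (SL_single (SI_inv (A5_SI h5 hx hy)) (F1_inv (A5_F1 h5)))
    rw [A5_absorb h5] at h1
    have : 1 + (m - 2) + 1 = m := by omega
    rwa [this] at h1
  exact ⟨_, (A5_F1 h5).mul (F1_inv (A5_F1 h5)), key k hk, key m hm⟩

end Group

end Pool.Agent.R794.PM
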