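import Pool.Agent.R794.PM.ZFive

/-!
# Unions of length sets in reduced finitary power monoids are intervals
-/

open scoped Pointwise

namespace Pool.Agent.R794.PM

universe u

variable {H : Type u} [Monoid H]

theorem absorb_of_idem {e : H} (he : e ≠ 1) (hee : e * e = e ∨ e * e = 1) : Absorb H := by
  refine ⟨{1, e}, {1, e}, F1_pair e, F1_pair e, SI_pair he, SI_pair he, Or.inl ?_⟩
  ext z
  constructor
  · rintro ⟨a, (rfl | rfl), b, (rfl | rfl), rfl⟩
    · simp
    · simp
    · simp
    · rcases hee with h | h <;> simp [h]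
  · rintro (rfl | rfl)
    · exact ⟨1, by simp, 1, by simp, by simp⟩
    · exact ⟨z, by simp, 1, by simp, by simp⟩

theorem pow_eq_one_of_not_absorb (hab : ¬ Absorb H) {x : H} {i j : ℕ} (hij : i ≠ j)
    (h : x ^ i = x ^ j) : ∃ n : ℕ, 0 < n ∧ x ^ n = 1 := by
  wlog hlt : i < j generalizing i j
  · exact this hij.symm h.symm (by omega)
  rcases Nat.eq_zero_or_pos i with rfl | hi
  · exact ⟨j, hlt, by simpa using h.symm⟩
  obtain ⟨d, hd⟩ := Nat.exists_eq_add_of_lt hlt
  have hstep : ∀ t : ℕ, x ^ (i + t * (d + 1)) = x ^ i := by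
    intro t
    induction t with
    | zero => simp
    | succ t ih =>
      have e : i + (t + 1) * (d + 1) = (i + d + 1) + t * (d + 1) := by ring
      rw [e, pow_add, ← hd, ← h, ← pow_add, ih]
  have hN : ∀ N : ℕ, i ≤ N → ∀ t : ℕ, x ^ (N + t * (d + 1)) = x ^ N := by
    intro N hN t
    obtain ⟨r, rfl⟩ := Nat.exists_eq_add_of_le hN
    have e : i + r + t * (d + 1) = r + (i + t * (d + 1)) := by ring
    rw [e, pow_add, hstep, ← pow_add, add_comm]
  refine ⟨i * (d + 1), by positivity, ?_⟩
  by_contra hne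
  apply hab
  refine absorb_of_idem hne (Or.inl ?_)
  rw [← pow_add]
  exact hN _ (Nat.le_mul_of_pos_right i (by omega)) i

/-- The full description of the unions of length sets. -/
theorem description (H : Type u) [Monoid H] :
    (∀ k, 1 ≤ k → US H k = ∅) ∨
    (∀ k, 1 ≤ k → US H k = {m | 1 ≤ m}) ∨
    (US H 1 = {1} ∧ ∀ k, 2 ≤ k → US H k = {m | 2 ≤ m}) ∨
    (Nat.card H = 5 ∧ US H 1 = {1} ∧ US H 2 = {m | 2 ≤ m ∧ m ≤ 3} ∧ US H 3 = {m | 2 ≤ m} ∧
      ∀ k, 4 ≤ k → US H k = {m | 3 ≤ m}) := by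
  by_cases htriv : ∀ x : H, x = 1
  · left
    intro k hk
    ext m
    simp only [Set.mem_empty_iff_false, iff_false]
    rintro ⟨X, hX, ⟨w, hw, -, hl⟩, -⟩
    rcases w with _ | ⟨a, w⟩
    · simp at hl; omega
    · have ha := hw a (by simp)
      apply ha.1.1
      apply Set.Subset.antisymm
      · intro z _
        rw [htriv z]
        exact Set.mem_one.2 rfl
      · intro z _
        rw [htriv z]
        exact ha.2.2
  by_cases hab : Absorb H
  · right; left
    intro k hk
    exact US_of_absorb hab hk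
  right; right
  have hU1 : US H 1 = {1} := by
    push Not at htriv
    obtain ⟨x, hx⟩ := htriv
    ext m
    constructor
    · rintro ⟨X, -, h1, hm⟩
      exact not_mem_US_one hab h1 hm
    · intro hm
      have : m = 1 := by simpa using hm
      subst this
      exact ⟨_, F1_pair x, SL_single (SI_pair hx) (F1_pair x), SL_single (SI_pair hx) (F1_pair x)⟩
  have hge : (∀ k m : ℕ, 2 ≤ k → 2 ≤ m → m ∈ US H k) → ∀ k, 2 ≤ k → US H k = {m | 2 ≤ m} := by
    intro h k hk
    ext m
    exact ⟨fun hm => two_le_of_mem_US hab hk hm, fun hm => h k m hk hm⟩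
  by_cases hinf : ∃ x : H, ∀ i j : ℕ, x ^ i = x ^ j → i = j
  · left
    obtain ⟨x, hx⟩ := hinf
    exact ⟨hU1, hge fun k m hk hm => US_of_infinite hx hk hm⟩
  -- all elements have finite order
  have hfin : ∀ x : H, ∃ n : ℕ, 0 < n ∧ x ^ n = 1 := by
    intro x
    push Not at hinf
    obtain ⟨i, j, h, hij⟩ := hinf x
    exact pow_eq_one_of_not_absorb hab hij h
  have hpos : ∀ x : H, 0 < orderOf x := by
    intro x
    obtain ⟨n, hn, hx⟩ := hfin x
    exact orderOf_pos_iff.2 (isOfFinOrder_iff_pow_eq_one.2 ⟨n, hn, hx⟩)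
  have hodd : ∀ x : H, orderOf x % 2 = 1 := by
    intro x
    by_contra hev
    have h2 : 2 * (orderOf x / 2) = orderOf x := by omega
    apply hab
    refine absorb_of_idem (e := x ^ (orderOf x / 2)) ?_ (Or.inr ?_)
    · intro h
      have h3 := orderOf_dvd_of_pow_eq_one h
      have h4 := hpos x
      have h5 := Nat.le_of_dvd (by omega) h3
      omega
    · rw [← pow_add, ← two_mul, h2, pow_orderOf_eq_one]
  by_cases h15 : ∃ x : H, orderOf x ≠ 1 ∧ orderOf x ≠ 5
  · left
    obtain ⟨x, hx1, hx5⟩ := h15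
    refine ⟨hU1, hge fun k m hk hm => ?_⟩
    have hinj : ∀ i j : ℕ, i < orderOf x → j < orderOf x → x ^ i = x ^ j → i = j := by
      intro i j hi hj h
      exact pow_injOn_Iio_orderOf hi hj h
    exact ⟨PC x, PC_F1 (hpos x) (pow_orderOf_eq_one x),
      PC_lengths (hpos x) (pow_orderOf_eq_one x) hinj (hodd x) hx1 hx5 hk,
      PC_lengths (hpos x) (pow_orderOf_eq_one x) hinj (hodd x) hx1 hx5 hm⟩
  push Not at h15
  have h5 : ∀ g : H, g ^ 5 = 1 := by
    intro g
    by_cases h1 : orderOf g = 1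
    · rw [orderOf_eq_one_iff] at h1
      simp [h1]
    · have := h15 g h1
      rw [← this]
      exact pow_orderOf_eq_one g
  let grp : Group H :=
    { (inferInstance : Monoid H) with
      inv := fun g => g ^ 4
      inv_mul_cancel := fun g => by
        change g ^ 4 * g = 1
        rw [← pow_succ]
        exact h5 g }
  push Not at htriv
  obtain ⟨x, hx⟩ := htriv
  by_cases hy : ∃ y : H, ∀ i : ℕ, y ≠ x ^ i
  · left
    obtain ⟨y, hy⟩ := hy
    exact ⟨hU1, hge fun k m hk hm => US_of_five (G := H) h5 hx hy hk hm⟩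
  · right
    push Not at hy
    exact ⟨card5 (G := H) h5 hx hy, hU1, US5_two (G := H) h5 hx hy hab, US5_three (G := H) h5 hx hy hab,
      fun k hk => US5_ge_four (G := H) h5 hx hy hab hk⟩

theorem interval (H : Type u) [Monoid H] (k : ℕ) (hk : 1 ≤ k) : IsInterval (US H k) := by
  rcases description H with h | h | ⟨h1, h⟩ | ⟨-, h1, h2, h3, h4⟩
  · apply isInterval_of_eq_Icc 1 0
    rw [h k hk]
    ext m
    simp only [Set.mem_empty_iff_false, Set.mem_ofPred_eq, false_iff]
    omega
  · exact isInterval_of_eq_Ici 1 (h k hk)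
  · by_cases hk1 : k = 1
    · subst hk1
      apply isInterval_of_eq_Icc 1 1
      rw [h1]
      ext m
      simp only [Set.mem_singleton_iff, Set.mem_ofPred_eq]
      omega
    · exact isInterval_of_eq_Ici 2 (h k (by omega))
  · have hk' : k = 1 ∨ k = 2 ∨ k = 3 ∨ 4 ≤ k := by omega
    rcases hk' with rfl | rfl | rfl | hk'
    · apply isInterval_of_eq_Icc 1 1
      rw [h1]
      ext m
      simp only [Set.mem_singleton_iff, Set.mem_ofPred_eq]
      omega
    · exact isInterval_of_eq_Icc 2 3 h2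
    · exact isInterval_of_eq_Ici 2 h3
    · exact isInterval_of_eq_Ici 3 (h4 k hk')

end Pool.Agent.R794.PM
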