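import Pool.Agent.R794.PM.SetLevel

/-!
# Minimal factorizations: definitions and reduction to sets
-/

open scoped Pointwise

namespace Pool.Agent.R794.PM

universe u

section General

variable {M : Type u} [Monoid M]

/-- `x ≃ y`: the elements `x`, `y` divide each other. -/
def Equiv' (x y : M) : Prop := Divides x y ∧ Divides y x

/-- `w` is a minimal factorization of `x`: it is a factorization of `x`, and there is no strictly
shorter factorization `v` of `x` with an injection `τ` from the positions of `v` to the positions
of `w` such that each letter of `v` is `≃` the corresponding letter of `w`. -/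
def IsMinimalFactorization (w : List M) (x : M) : Prop :=
  IsFactorization w x ∧ ¬ ∃ v : List M, IsFactorization v x ∧ v.length < w.length ∧
    ∃ τ : Fin v.length → Fin w.length, Function.Injective τ ∧ ∀ i, Equiv' (v.get i) (w.get (τ i))

/-- The set of lengths of minimal factorizations of `x`. -/
def minLengthSet (x : M) : Set ℕ := {m | ∃ w : List M, IsMinimalFactorization w x ∧ w.length = m}

variable (M) in
/-- The union of all sets of minimal lengths that contain `k`. -/
def unionMinLengths (k : ℕ) : Set ℕ := {m | ∃ x : M, k ∈ minLengthSet x ∧ m ∈ minLengthSet x}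

theorem minLengthSet_subset (x : M) : minLengthSet x ⊆ lengthSet x := by
  rintro m ⟨w, hw, rfl⟩
  exact ⟨w, hw.1, rfl⟩

/-- The stated convention at the identity holds: its set of minimal lengths is `{0}`. -/
theorem minLengthSet_one : minLengthSet (1 : M) = {0} := by
  ext m
  constructor
  · intro h
    have := minLengthSet_subset _ h
    rwa [lengthSet_one] at this
  · rintro rfl
    exact ⟨[], ⟨⟨by simp, by simp⟩, fun ⟨v, _, hv, _⟩ => by simp at hv⟩, rfl⟩

/-- The stated convention at the other unit-divisors holds: the sets of minimal lengths are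
empty. -/
theorem minLengthSet_unitDivisor {x : M} (hx : UnitDivisor x) (h1 : x ≠ 1) :
    minLengthSet x = ∅ := by
  have := minLengthSet_subset x
  rw [lengthSet_unitDivisor hx h1] at this
  exact Set.subset_empty_iff.1 this

end General

variable {H : Type u} [Monoid H]

theorem equiv'_iff (X Y : powerMonoid H) : Equiv' X Y ↔ X = Y := by
  constructor
  · rintro ⟨h1, h2⟩
    exact Subtype.ext (Set.Subset.antisymm (divides_subset h1) (divides_subset h2))
  · rintro rfl
    exact ⟨divides_refl X, divides_refl X⟩

/-- Set-level factorizations. -/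
def SF (w : List (Set H)) (X : Set H) : Prop := (∀ a ∈ w, SI a ∧ F1 a) ∧ w.prod = X

/-- Set-level minimal factorizations. -/
def SMF (w : List (Set H)) (X : Set H) : Prop :=
  SF w X ∧ ¬ ∃ v : List (Set H), SF v X ∧ v.length < w.length ∧
    ∃ τ : Fin v.length → Fin w.length, Function.Injective τ ∧ ∀ i, v.get i = w.get (τ i)

/-- Set-level sets of minimal lengths. -/
def SM (X : Set H) : Set ℕ := {m | ∃ w : List (Set H), SMF w X ∧ w.length = m}

theorem isFactorization_iff (w : List (powerMonoid H)) (X : powerMonoid H) :
    IsFactorization w X ↔ SF (w.map Subtype.val) (X : Set H) := by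
  constructor
  · rintro ⟨hw, rfl⟩
    refine ⟨?_, ?_⟩
    · intro a ha
      obtain ⟨b, hb, rfl⟩ := List.mem_map.1 ha
      exact ⟨(irred_iff b).1 (hw b hb), b.2⟩
    · rw [Submonoid.coe_list_prod]
  · rintro ⟨hw, hp⟩
    refine ⟨?_, ?_⟩
    · intro a ha
      rw [irred_iff]
      exact (hw a (List.mem_map_of_mem ha)).1
    · apply Subtype.ext
      rw [Submonoid.coe_list_prod, ← hp]

theorem lift_list (w : List (Set H)) (h : ∀ a ∈ w, SI a ∧ F1 a) :
    ∃ v : List (powerMonoid H), v.map Subtype.val = w := by
  induction w with
  | nil => exact ⟨[], rfl⟩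
  | cons a w ih =>
    obtain ⟨v, hv⟩ := ih (fun b hb => h b (by simp [hb]))
    exact ⟨⟨a, (h a (by simp)).2⟩ :: v, by simp [hv]⟩

theorem isMinimalFactorization_iff (w : List (powerMonoid H)) (X : powerMonoid H) :
    IsMinimalFactorization w X ↔ SMF (w.map Subtype.val) (X : Set H) := by
  unfold IsMinimalFactorization SMF
  rw [isFactorization_iff]
  refine and_congr_right fun _ => not_congr ?_
  constructor
  · rintro ⟨v, hv, hl, τ, hτ, h⟩
    refine ⟨v.map Subtype.val, (isFactorization_iff v X).1 hv, by simpa using hl,
      fun i => ⟨τ ⟨i.1, by simpa using i.2⟩, by simp⟩, ?_, ?_⟩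
    · intro i j hij
      have h1 : τ ⟨i.1, by simpa using i.2⟩ = τ ⟨j.1, by simpa using j.2⟩ := by
        apply Fin.ext
        simpa using hij
      have h2 := hτ h1
      apply Fin.ext
      simpa using h2
    · intro i
      have h1 := (equiv'_iff _ _).1 (h ⟨i.1, by simpa using i.2⟩)
      simp only [List.get_eq_getElem, List.getElem_map]
      exact congrArg Subtype.val h1
  · rintro ⟨v', hv', hl, τ, hτ, h⟩
    obtain ⟨v, rfl⟩ := lift_list v' hv'.1
    refine ⟨v, (isFactorization_iff v X).2 hv', by simpa using hl,
      fun i => ⟨τ ⟨i.1, by simp⟩, by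
        have := (τ ⟨i.1, by simp⟩).2
        simp only [List.length_map] at this
        exact this⟩, ?_, ?_⟩
    · intro i j hij
      have h1 : τ ⟨i.1, by simp⟩ = τ ⟨j.1, by simp⟩ := by
        apply Fin.ext
        simpa using hij
      have h2 := hτ h1
      apply Fin.ext
      simpa using h2
    · intro i
      rw [equiv'_iff]
      apply Subtype.ext
      have h1 := h ⟨i.1, by simp⟩
      simp only [List.get_eq_getElem, List.getElem_map] at h1
      exact h1

theorem minLengthSet_eq (X : powerMonoid H) : minLengthSet X = SM (X : Set H) := by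
  ext m
  constructor
  · rintro ⟨w, hw, rfl⟩
    exact ⟨w.map Subtype.val, (isMinimalFactorization_iff w X).1 hw, by simp⟩
  · rintro ⟨w', hw', rfl⟩
    obtain ⟨w, rfl⟩ := lift_list w' hw'.1.1
    exact ⟨w, (isMinimalFactorization_iff w X).2 hw', by simp⟩

end Pool.Agent.R794.PM
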