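import Pool.Agent.R794.PM.SetLevel

/-!
# Powers of one element

The cyclic submonoid generated by an element of infinite order, or of odd order different
from `1` and `5`.
-/

open scoped Pointwise

namespace Pool.Agent.R794.PM

universe u

variable {H : Type u} [Monoid H]

/-- The powers `x ^ i` with `i = 0` or `a ≤ i ≤ c`. -/
def PA (x : H) (a c : ℕ) : Set H := {h | ∃ i, (i = 0 ∨ (a ≤ i ∧ i ≤ c)) ∧ h = x ^ i}

/-- The powers `x ^ i` with `i ≤ b` or `i = b'`. -/
def PB (x : H) (b b' : ℕ) : Set H := {h | ∃ i, (i ≤ b ∨ i = b') ∧ h = x ^ i}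

/-- The powers `x ^ i` with `i ≤ n`. -/
def PI (x : H) (n : ℕ) : Set H := {h | ∃ i, i ≤ n ∧ h = x ^ i}

theorem PI_F1 (x : H) (n : ℕ) : F1 (PI x n) := by
  refine ⟨?_, 0, Nat.zero_le _, by simp⟩
  apply ((Set.finite_Iic n).image (fun i => x ^ i)).subset
  rintro h ⟨i, hi, rfl⟩
  exact ⟨i, hi, rfl⟩

theorem PA_F1 (x : H) (a c : ℕ) : F1 (PA x a c) := by
  refine ⟨(PI_F1 x c).1.subset ?_, 0, Or.inl rfl, by simp⟩
  rintro h ⟨i, hi, rfl⟩
  exact ⟨i, by omega, rfl⟩

theorem PB_F1 (x : H) (b b' : ℕ) : F1 (PB x b b') := by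
  refine ⟨(PI_F1 x (b + b')).1.subset ?_, 0, Or.inl (Nat.zero_le _), by simp⟩
  rintro h ⟨i, hi, rfl⟩
  exact ⟨i, by omega, rfl⟩

section Infinite

variable {x : H} (hx : ∀ i j : ℕ, x ^ i = x ^ j → i = j)
include hx

theorem PA_SI {a c : ℕ} (ha : 2 ≤ a) (hc : a + 1 ≤ c) (hc' : c ≤ 2 * a) : SI (PA x a c) := by
  refine SI_of (A := PA x a c) {x ^ a} ?_ (x ^ (a + 1)) ⟨a + 1, Or.inr ⟨by omega, hc⟩, rfl⟩ ?_
  swap
  · rintro u v (rfl | hu) (rfl | hv)
    · intro h
      have := hx 0 (a + 1) (by simpa using h)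
      omega
    · rw [Set.mem_singleton_iff.1 hv]
      intro h
      have := hx a (a + 1) (by simpa using h)
      omega
    · rw [Set.mem_singleton_iff.1 hu]
      intro h
      have := hx a (a + 1) (by simpa using h)
      omega
    · rw [Set.mem_singleton_iff.1 hu, Set.mem_singleton_iff.1 hv]
      intro h
      have := hx (a + a) (a + 1) (by rw [pow_add]; exact h)
      omega
  · rintro u ⟨i, hi, rfl⟩ v ⟨j, hj, rfl⟩ hu hv ⟨l, hl, hlij⟩
    rw [← pow_add] at hlij
    have h1 := hx _ _ hlij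
    have hi0 : i ≠ 0 := by rintro rfl; simp at hu
    have hj0 : j ≠ 0 := by rintro rfl; simp at hv
    have hia : i = a := by omega
    have hja : j = a := by omega
    simp [hia, hja]

theorem PB_SI {b b' : ℕ} (hb : 2 * b + 1 ≤ b') : SI (PB x b b') := by
  constructor
  · intro h
    have : x ^ b' ∈ (1 : Set H) := by rw [← h]; exact ⟨b', Or.inr rfl, rfl⟩
    have h2 : x ^ b' = 1 := by simpa using this
    have := hx b' 0 (by simpa using h2)
    omega
  · intro U V hU hV hUV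
    have hUA : U ⊆ PB x b b' := by rw [hUV]; exact subset_mul_of_one_right hV
    have hVA : V ⊆ PB x b b' := by rw [hUV]; exact subset_mul_of_one_left hU
    have hmem : x ^ b' ∈ U * V := by rw [← hUV]; exact ⟨b', Or.inr rfl, rfl⟩
    have hUV' : ∀ u ∈ U, ∀ v ∈ V, u * v ∈ PB x b b' := by
      intro u hu v hv
      rw [hUV]
      exact Set.mul_mem_mul hu hv
    obtain ⟨u, hu, v, hv, huv⟩ := hmem
    obtain ⟨p, hp, rfl⟩ := hUA hu
    obtain ⟨q, hq, rfl⟩ := hVA hv
    simp only [← pow_add] at huv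
    have hpq := hx _ _ huv
    have hcase : (p = b' ∧ q = 0) ∨ (p = 0 ∧ q = b') := by omega
    rcases hcase with ⟨rfl, rfl⟩ | ⟨rfl, rfl⟩
    · left
      have hV1 : V = 1 := by
        apply Set.Subset.antisymm
        · intro v hv'
          obtain ⟨j, hj, rfl⟩ := hVA hv'
          obtain ⟨l, hl, hlj⟩ := hUV' _ hu _ hv'
          rw [← pow_add] at hlj
          have := hx _ _ hlj
          have hj0 : j = 0 := by omega
          simp [hj0]
        · intro y hy
          have : y = 1 := by simpa using hy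
          rw [this]; exact hV
      rw [hUV, hV1, mul_one]
    · right
      have hU1 : U = 1 := by
        apply Set.Subset.antisymm
        · intro v hv'
          obtain ⟨j, hj, rfl⟩ := hUA hv'
          obtain ⟨l, hl, hlj⟩ := hUV' _ hv' _ hv
          rw [← pow_add] at hlj
          have := hx _ _ hlj
          have hj0 : j = 0 := by omega
          simp [hj0]
        · intro y hy
          have : y = 1 := by simpa using hy
          rw [this]; exact hU
      rw [hUV, hU1, one_mul]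

omit hx in
theorem PA_mul_PB {a c b b' : ℕ} (h1 : a ≤ b + 1) (h2 : a ≤ c) (h3 : a + b' ≤ c + b + 1) (h4 : b ≤ b') :
    PA x a c * PB x b b' = PI x (c + b') := by
  ext h
  constructor
  · rintro ⟨_, ⟨i, hi, rfl⟩, _, ⟨j, hj, rfl⟩, rfl⟩
    refine ⟨i + j, by omega, ?_⟩
    simp only [pow_add]
  · rintro ⟨n, hn, rfl⟩
    by_cases hnb : n ≤ b
    · exact ⟨1, ⟨0, Or.inl rfl, by simp⟩, x ^ n, ⟨n, Or.inl hnb, rfl⟩, by simp⟩
    by_cases hncb : n ≤ c + b
    · by_cases hna : n ≤ a + b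
      · refine ⟨x ^ a, ⟨a, Or.inr ⟨le_refl _, h2⟩, rfl⟩, x ^ (n - a), ⟨n - a, Or.inl (by omega), rfl⟩, ?_⟩
        simp only [← pow_add]
        congr 1
        omega
      · refine ⟨x ^ (n - b), ⟨n - b, Or.inr ⟨by omega, by omega⟩, rfl⟩, x ^ b, ⟨b, Or.inl (le_refl _), rfl⟩, ?_⟩
        simp only [← pow_add]
        congr 1
        omega
    · refine ⟨x ^ (n - b'), ⟨n - b', Or.inr ⟨by omega, by omega⟩, rfl⟩, x ^ b', ⟨b', Or.inr rfl, rfl⟩, ?_⟩
      simp only [← pow_add]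
      congr 1
      omega

omit hx in
theorem PI_mul_pair (n : ℕ) : PI x n * {1, x} = PI x (n + 1) := by
  ext h
  constructor
  · rintro ⟨_, ⟨i, hi, rfl⟩, v, (rfl | rfl), rfl⟩
    · exact ⟨i, by omega, by simp⟩
    · exact ⟨i + 1, by omega, by simp [pow_succ]⟩
  · rintro ⟨i, hi, rfl⟩
    by_cases h : i ≤ n
    · exact ⟨x ^ i, ⟨i, h, rfl⟩, 1, by simp, by simp⟩
    · have : i = n + 1 := by omega
      subst this
      exact ⟨x ^ n, ⟨n, le_refl _, rfl⟩, x, by simp, by simp [pow_succ]⟩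

omit hx in
theorem PI_mul_pair_pow (n j : ℕ) : PI x n * {1, x} ^ j = PI x (n + j) := by
  induction j with
  | zero => simp
  | succ j ih => rw [pow_succ, ← mul_assoc, ih, PI_mul_pair]; rfl

theorem two_mem_PI {n : ℕ} (hn : 6 ≤ n) : 2 ∈ SL (PI x n) := by
  have hex : ∃ a c b b' : ℕ, 2 ≤ a ∧ a + 1 ≤ c ∧ c ≤ 2 * a ∧ 2 * b + 1 ≤ b' ∧ a ≤ b + 1 ∧
      a + b' ≤ c + b + 1 ∧ c + b' = n := by
    have hr : n % 4 = 0 ∨ n % 4 = 1 ∨ n % 4 = 2 ∨ n % 4 = 3 := by omega
    rcases hr with h | h | h | h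
    · exact ⟨n / 4, 2 * (n / 4), n / 4 - 1, 2 * (n / 4), by omega, by omega, by omega, by omega,
        by omega, by omega, by omega⟩
    · exact ⟨n / 4, 2 * (n / 4), n / 4, 2 * (n / 4) + 1, by omega, by omega, by omega, by omega,
        by omega, by omega, by omega⟩
    · exact ⟨n / 4 + 1, 2 * (n / 4) + 1, n / 4, 2 * (n / 4) + 1, by omega, by omega, by omega,
        by omega, by omega, by omega, by omega⟩
    · exact ⟨n / 4 + 1, 2 * (n / 4) + 2, n / 4, 2 * (n / 4) + 1, by omega, by omega, by omega,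
        by omega, by omega, by omega, by omega⟩
  obtain ⟨a, c, b, b', h1, h2, h3, h4, h5, h6, rfl⟩ := hex
  rw [← PA_mul_PB h5 (by omega) h6 (by omega)]
  exact SL_mul (m := 1) (n := 1) (SL_single (PA_SI hx h1 h2 h3) (PA_F1 _ _ _))
    (SL_single (PB_SI hx h4) (PB_F1 _ _ _))

theorem mem_PI {n m : ℕ} (hm : 2 ≤ m) (hn : m + 4 ≤ n) : m ∈ SL (PI x n) := by
  have hx1 : x ≠ 1 := by
    intro h
    have := hx 1 0 (by simp [h])
    omega
  have h2 := two_mem_PI hx (n := n - (m - 2)) (by omega)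
  have h3 := SL_mul h2 (SL_pow (SI_pair hx1) (F1_pair x) (m - 2))
  rw [PI_mul_pair_pow] at h3
  have e1 : n - (m - 2) + (m - 2) = n := by omega
  have e2 : 2 + (m - 2) = m := by omega
  rwa [e1, e2] at h3

theorem US_of_infinite {k m : ℕ} (hk : 2 ≤ k) (hm : 2 ≤ m) : m ∈ US H k :=
  ⟨PI x (k + m + 4), PI_F1 _ _, mem_PI hx hk (by omega), mem_PI hx hm (by omega)⟩

end Infinite

section FiniteOrder

/-- All powers of `x`. -/
def PC (x : H) : Set H := {h | ∃ i : ℕ, h = x ^ i}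

variable {x : H} {n : ℕ} (hn : 0 < n) (hxn : x ^ n = 1)
  (hinj : ∀ i j : ℕ, i < n → j < n → x ^ i = x ^ j → i = j)

include hn hxn in
theorem PC_F1 : F1 (PC x) := by
  refine ⟨(PI_F1 x n).1.subset ?_, 0, by simp⟩
  rintro h ⟨i, rfl⟩
  refine ⟨i % n, (Nat.mod_lt _ hn).le, ?_⟩
  conv_lhs => rw [← Nat.div_add_mod i n]
  rw [pow_add, pow_mul, hxn]
  simp

theorem PC_mul_pair : PC x * {1, x} = PC x := by
  ext h
  constructor
  · rintro ⟨_, ⟨i, rfl⟩, v, (rfl | rfl), rfl⟩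
    · exact ⟨i, by simp⟩
    · exact ⟨i + 1, by simp [pow_succ]⟩
  · rintro ⟨i, rfl⟩
    exact ⟨x ^ i, ⟨i, rfl⟩, 1, by simp, by simp⟩

include hinj in
theorem PA_SI_finite {a c : ℕ} (ha : 1 ≤ a) (hc : (c + 1 = 2 * a) ∨ (c = 2 * a ∧ 2 ≤ a))
    (hnc : 2 * c + 1 = n) : SI (PA x a c) := by
  rcases hc with hc | ⟨hc, ha2⟩
  · refine SI_of (A := PA x a c) ∅ ?_ (x ^ a) ⟨a, Or.inr ⟨le_refl _, by omega⟩, rfl⟩ ?_
    swap
    · rintro u v (rfl | hu) (rfl | hv)
      · intro h
        have := hinj 0 a (by omega) (by omega) (by simpa using h)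
        omega
      · exact absurd hv (by simp)
      · exact absurd hu (by simp)
      · exact absurd hu (by simp)
    · rintro u ⟨i, hi, rfl⟩ v ⟨j, hj, rfl⟩ hu hv ⟨l, hl, hlij⟩
      exfalso
      rw [← pow_add] at hlij
      have h1 := hinj _ _ (by omega) (by omega) hlij
      have hi0 : i ≠ 0 := by rintro rfl; simp at hu
      have hj0 : j ≠ 0 := by rintro rfl; simp at hv
      omega
  · refine SI_of (A := PA x a c) {x ^ a} ?_ (x ^ (a + 1)) ⟨a + 1, Or.inr ⟨by omega, by omega⟩, rfl⟩ ?_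
    swap
    · rintro u v (rfl | hu) (rfl | hv)
      · intro h
        have := hinj 0 (a + 1) (by omega) (by omega) (by simpa using h)
        omega
      · rw [Set.mem_singleton_iff.1 hv]
        intro h
        have := hinj a (a + 1) (by omega) (by omega) (by simpa using h)
        omega
      · rw [Set.mem_singleton_iff.1 hu]
        intro h
        have := hinj a (a + 1) (by omega) (by omega) (by simpa using h)
        omega
      · rw [Set.mem_singleton_iff.1 hu, Set.mem_singleton_iff.1 hv]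
        intro h
        have := hinj (a + a) (a + 1) (by omega) (by omega) (by rw [pow_add]; exact h)
        omega
    · rintro u ⟨i, hi, rfl⟩ v ⟨j, hj, rfl⟩ hu hv ⟨l, hl, hlij⟩
      rw [← pow_add] at hlij
      have h1 := hinj _ _ (by omega) (by omega) hlij
      have hi0 : i ≠ 0 := by rintro rfl; simp at hu
      have hj0 : j ≠ 0 := by rintro rfl; simp at hv
      have hia : i = a := by omega
      have hja : j = a := by omega
      simp [hia, hja]

include hn hxn hinj in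
/-- Powers of the inverse are pairwise distinct, too. -/
theorem inv_inj : ∀ i j : ℕ, i < n → j < n → (x ^ (n - 1)) ^ i = (x ^ (n - 1)) ^ j → i = j := by
  have key : ∀ i, i ≤ n → x ^ i * (x ^ (n - 1)) ^ i = 1 := by
    intro i _
    rw [← pow_mul, ← pow_add]
    have : i + (n - 1) * i = n * i := by
      rcases n with _ | n
      · omega
      · simp only [Nat.add_sub_cancel]
        ring
    rw [this, pow_mul, hxn, one_pow]
  intro i j hi hj h
  apply hinj i j hi hj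
  have hc : ∀ a b : ℕ, x ^ a * x ^ b = x ^ b * x ^ a := fun a b => by
    rw [← pow_add, ← pow_add, add_comm]
  have h1 := key i hi.le
  have h2 := key j hj.le
  calc x ^ i = x ^ i * (x ^ j * (x ^ (n - 1)) ^ j) := by rw [h2, mul_one]
    _ = x ^ j * (x ^ i * (x ^ (n - 1)) ^ i) := by
        rw [← h, ← mul_assoc, ← mul_assoc, hc]
    _ = x ^ j := by rw [h1, mul_one]

include hn hxn in
theorem PA_mul_PA {a c : ℕ} (ha : 1 ≤ a) (hc : 2 * a ≤ c + 1) (hnc : 2 * c + 1 = n) :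
    PA x a c * PA (x ^ (n - 1)) a c = PC x := by
  have key : ∀ i, x ^ i * (x ^ (n - 1)) ^ i = 1 := by
    intro i
    rw [← pow_mul, ← pow_add]
    have : i + (n - 1) * i = n * i := by
      rcases n with _ | n
      · omega
      · simp only [Nat.add_sub_cancel]
        ring
    rw [this, pow_mul, hxn, one_pow]
  ext h
  constructor
  · rintro ⟨_, ⟨i, hi, rfl⟩, _, ⟨j, hj, rfl⟩, rfl⟩
    exact ⟨i + (n - 1) * j, by simp only [pow_add, pow_mul]⟩
  · rintro ⟨i, rfl⟩
    obtain ⟨r, hr, hri⟩ : ∃ r, r < n ∧ x ^ i = x ^ r := by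
      refine ⟨i % n, Nat.mod_lt _ hn, ?_⟩
      conv_lhs => rw [← Nat.div_add_mod i n]
      rw [pow_add, pow_mul, hxn]
      simp
    rw [hri]
    by_cases h0 : r = 0
    · exact ⟨1, ⟨0, Or.inl rfl, by simp⟩, 1, ⟨0, Or.inl rfl, by simp⟩, by simp [h0]⟩
    by_cases h1 : a ≤ r ∧ r ≤ c
    · exact ⟨x ^ r, ⟨r, Or.inr h1, rfl⟩, 1, ⟨0, Or.inl rfl, by simp⟩, by simp⟩
    by_cases h2 : r < a
    · refine ⟨x ^ (r + a), ⟨r + a, Or.inr ⟨by omega, by omega⟩, rfl⟩, (x ^ (n - 1)) ^ a,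
        ⟨a, Or.inr ⟨le_refl _, by omega⟩, rfl⟩, ?_⟩
      simp only [pow_add x r a, mul_assoc]
      rw [key a, mul_one]
    have h3 : c < r := by omega
    have e : x ^ r * x ^ (n - r) = 1 := by rw [← pow_add, Nat.add_sub_cancel' hr.le, hxn]
    by_cases h4 : a ≤ n - r
    · refine ⟨1, ⟨0, Or.inl rfl, by simp⟩, (x ^ (n - 1)) ^ (n - r),
        ⟨n - r, Or.inr ⟨h4, by omega⟩, rfl⟩, ?_⟩
      simp only [one_mul]
      calc (x ^ (n - 1)) ^ (n - r) = (x ^ r * x ^ (n - r)) * (x ^ (n - 1)) ^ (n - r) := by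
            rw [e, one_mul]
        _ = x ^ r := by rw [mul_assoc, key, mul_one]
    · refine ⟨x ^ a, ⟨a, Or.inr ⟨le_refl _, by omega⟩, rfl⟩, (x ^ (n - 1)) ^ (n - r + a),
        ⟨n - r + a, Or.inr ⟨by omega, by omega⟩, rfl⟩, ?_⟩
      have e2 : x ^ a * (x ^ (n - 1)) ^ (n - r + a) = (x ^ (n - 1)) ^ (n - r) := by
        rw [add_comm, pow_add, ← mul_assoc, key, one_mul]
      simp only [e2]
      calc (x ^ (n - 1)) ^ (n - r) = (x ^ r * x ^ (n - r)) * (x ^ (n - 1)) ^ (n - r) := by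
            rw [e, one_mul]
        _ = x ^ r := by rw [mul_assoc, key, mul_one]

include hn hxn hinj in
/-- The subgroup of an odd order `n ≠ 1, 5` has all lengths `≥ 2`. -/
theorem PC_lengths (hodd : n % 2 = 1) (h1 : n ≠ 1) (h5 : n ≠ 5) {m : ℕ} (hm : 2 ≤ m) :
    m ∈ SL (PC x) := by
  have hx1 : x ≠ 1 := by
    intro h
    have := hinj 0 1 (by omega) (by omega) (by simp [h])
    omega
  have hex : ∃ a c : ℕ, 1 ≤ a ∧ ((c + 1 = 2 * a) ∨ (c = 2 * a ∧ 2 ≤ a)) ∧ 2 * c + 1 = n := by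
    have : n % 4 = 1 ∨ n % 4 = 3 := by omega
    rcases this with h | h
    · exact ⟨n / 4, 2 * (n / 4), by omega, by omega, by omega⟩
    · exact ⟨n / 4 + 1, 2 * (n / 4) + 1, by omega, by omega, by omega⟩
  obtain ⟨a, c, ha, hc, hnc⟩ := hex
  have h2 : 2 ∈ SL (PC x) := by
    rw [← PA_mul_PA hn hxn ha (by omega) hnc]
    exact SL_mul (m := 1) (n := 1) (SL_single (PA_SI_finite hinj ha hc hnc) (PA_F1 _ _ _))
      (SL_single (PA_SI_finite (inv_inj hn hxn hinj) ha hc hnc) (PA_F1 _ _ _))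
  have h3 := SL_mul h2 (SL_pow (SI_pair hx1) (F1_pair x) (m - 2))
  have e1 : ∀ j, PC x * ({1, x} : Set H) ^ j = PC x := by
    intro j
    induction j with
    | zero => simp
    | succ j ih => rw [pow_succ, ← mul_assoc, ih, PC_mul_pair]
  rw [e1] at h3
  have e2 : 2 + (m - 2) = m := by omega
  rwa [e2] at h3

end FiniteOrder

end Pool.Agent.R794.PM
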