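import Pool.Agent.R794.PM.Defs

/-!
# Reduction to sets

Irreducibles and length sets of the reduced finitary power monoid, in terms of sets.
-/

open scoped Pointwise

namespace Pool.Agent.R794.PM

universe u

variable {H : Type u} [Monoid H]

theorem subset_mul_of_one_left {U V : Set H} (h : (1 : H) ∈ U) : V ⊆ U * V :=
  fun v hv => ⟨1, h, v, hv, one_mul v⟩

theorem subset_mul_of_one_right {U V : Set H} (h : (1 : H) ∈ V) : U ⊆ U * V :=
  fun v hv => ⟨v, hv, 1, h, mul_one v⟩

/-- Set-level irreducibility. -/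
def SI (A : Set H) : Prop :=
  A ≠ 1 ∧ ∀ U V : Set H, 1 ∈ U → 1 ∈ V → A = U * V → U = A ∨ V = A

/-- Membership in the reduced finitary power monoid. -/
def F1 (A : Set H) : Prop := A.Finite ∧ (1 : H) ∈ A

theorem F1.mul {A B : Set H} (ha : F1 A) (hb : F1 B) : F1 (A * B) :=
  ⟨ha.1.mul hb.1, by simpa using Set.mul_mem_mul ha.2 hb.2⟩

theorem F1_one : F1 (1 : Set H) := ⟨Set.finite_one, Set.mem_one.2 rfl⟩

/-- Set-level length sets. -/
def SL (X : Set H) : Set ℕ :=
  {m | ∃ w : List (Set H), (∀ a ∈ w, SI a ∧ F1 a) ∧ w.prod = X ∧ w.length = m}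

theorem divides_subset {X Y : powerMonoid H} (h : Divides X Y) : (X : Set H) ⊆ Y := by
  obtain ⟨a, b, rfl⟩ := h
  intro x hx
  simp only [Submonoid.coe_mul]
  exact subset_mul_of_one_right b.2.2 (subset_mul_of_one_left a.2.2 hx)

theorem unitDivisor_iff (X : powerMonoid H) : UnitDivisor X ↔ X = 1 := by
  constructor
  · intro h
    have h1 := divides_subset h
    apply Subtype.ext
    apply Set.Subset.antisymm h1
    intro x hx
    have : x = 1 := by simpa using hx
    rw [this]
    exact X.2.2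
  · rintro rfl
    exact divides_refl 1

theorem irred_iff (X : powerMonoid H) : Irred X ↔ SI (X : Set H) := by
  constructor
  · rintro ⟨h1, h2⟩
    refine ⟨fun h => h1 ((unitDivisor_iff X).2 (Subtype.ext h)), ?_⟩
    intro U V hU hV hX
    by_contra hcon
    push Not at hcon
    apply h2
    have hUX : U ⊆ (X : Set H) := by rw [hX]; exact subset_mul_of_one_right hV
    have hVX : V ⊆ (X : Set H) := by rw [hX]; exact subset_mul_of_one_left hU
    have hUf : U.Finite := X.2.1.subset hUX
    have hVf : V.Finite := X.2.1.subset hVX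
    refine ⟨⟨U, hUf, hU⟩, ⟨V, hVf, hV⟩, Subtype.ext hX, ⟨⟨⟨1, ⟨V, hVf, hV⟩, ?_⟩, ?_⟩, ?_⟩,
      ⟨⟨⟨⟨U, hUf, hU⟩, 1, ?_⟩, ?_⟩, ?_⟩⟩
    · apply Subtype.ext; simpa using hX
    · intro h
      exact hcon.1 (Set.Subset.antisymm hUX (divides_subset h))
    · intro h
      have := congrArg Subtype.val ((unitDivisor_iff _).1 h)
      simp only [OneMemClass.coe_one] at this
      rw [this, one_mul] at hX
      exact hcon.2 hX.symm
    · apply Subtype.ext; simpa using hX
    · intro h
      exact hcon.2 (Set.Subset.antisymm hVX (divides_subset h))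
    · intro h
      have := congrArg Subtype.val ((unitDivisor_iff _).1 h)
      simp only [OneMemClass.coe_one] at this
      rw [this, mul_one] at hX
      exact hcon.1 hX.symm
  · rintro ⟨h1, h2⟩
    refine ⟨fun h => h1 (congrArg Subtype.val ((unitDivisor_iff X).1 h)), ?_⟩
    rintro ⟨b, c, hX, ⟨hb, -⟩, ⟨hc, -⟩⟩
    rcases h2 b c b.2.2 c.2.2 (by rw [hX]; rfl) with h | h
    · have : b = X := Subtype.ext h
      rw [this] at hb
      exact hb.2 hb.1
    · have : c = X := Subtype.ext h
      rw [this] at hc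
      exact hc.2 hc.1

theorem lengthSet_eq (X : powerMonoid H) : lengthSet X = SL (X : Set H) := by
  ext m
  constructor
  · rintro ⟨w, ⟨hw, rfl⟩, rfl⟩
    refine ⟨w.map Subtype.val, ?_, ?_, by simp⟩
    · intro a ha
      obtain ⟨b, hb, rfl⟩ := List.mem_map.1 ha
      exact ⟨(irred_iff b).1 (hw b hb), b.2⟩
    · rw [Submonoid.coe_list_prod]
  · rintro ⟨w, hw, hp, rfl⟩
    have hlift : ∀ w : List (Set H), (∀ a ∈ w, SI a ∧ F1 a) →
        ∃ v : List (powerMonoid H), v.map Subtype.val = w := by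
      intro w
      induction w with
      | nil => intro _; exact ⟨[], rfl⟩
      | cons a w ih =>
        intro h
        obtain ⟨v, hv⟩ := ih (fun b hb => h b (by simp [hb]))
        exact ⟨⟨a, (h a (by simp)).2⟩ :: v, by simp [hv]⟩
    obtain ⟨v, hv⟩ := hlift w hw
    refine ⟨v, ⟨?_, ?_⟩, ?_⟩
    · intro a ha
      rw [irred_iff]
      exact (hw a (by rw [← hv]; exact List.mem_map_of_mem ha)).1
    · apply Subtype.ext
      rw [Submonoid.coe_list_prod, ← hp, ← hv]
    · rw [← hv]; simp

/-- Set-level unions of length sets. -/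
def US (H : Type u) [Monoid H] (k : ℕ) : Set ℕ :=
  {m | ∃ X : Set H, F1 X ∧ k ∈ SL X ∧ m ∈ SL X}

theorem unionLengths_eq (k : ℕ) : unionLengths (powerMonoid H) k = US H k := by
  ext m
  constructor
  · rintro ⟨X, hk, hm⟩
    exact ⟨X, X.2, by rwa [← lengthSet_eq], by rwa [← lengthSet_eq]⟩
  · rintro ⟨X, hX, hk, hm⟩
    exact ⟨⟨X, hX⟩, by rwa [lengthSet_eq], by rwa [lengthSet_eq]⟩

theorem SL_mul {X Y : Set H} {m n : ℕ} (hm : m ∈ SL X) (hn : n ∈ SL Y) : m + n ∈ SL (X * Y) := by
  obtain ⟨v, hv, rfl, rfl⟩ := hm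
  obtain ⟨w, hw, rfl, rfl⟩ := hn
  refine ⟨v ++ w, ?_, by simp, by simp⟩
  intro a ha
  rcases List.mem_append.1 ha with h | h
  · exact hv a h
  · exact hw a h

theorem SL_single {X : Set H} (h : SI X) (hf : F1 X) : 1 ∈ SL X :=
  ⟨[X], by simp [h, hf], by simp, rfl⟩

theorem SL_one_iff {X : Set H} (h : 1 ∈ SL X) : SI X ∧ F1 X := by
  obtain ⟨w, hw, rfl, hl⟩ := h
  obtain ⟨a, rfl⟩ := List.length_eq_one_iff.1 hl
  have := hw a (by simp)
  simpa using this

theorem SL_zero_iff {X : Set H} (h : 0 ∈ SL X) : X = 1 := by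
  obtain ⟨w, hw, rfl, hl⟩ := h
  rw [List.length_eq_zero_iff.1 hl]
  simp

theorem SL_pow {c : Set H} (hc : SI c) (hf : F1 c) (j : ℕ) : j ∈ SL (c ^ j) := by
  induction j with
  | zero => exact ⟨[], by simp, by simp, rfl⟩
  | succ j ih =>
    rw [pow_succ]
    exact SL_mul ih (SL_single hc hf)

theorem F1_prod {w : List (Set H)} (h : ∀ a ∈ w, F1 a) : F1 w.prod := by
  induction w with
  | nil => simpa using F1_one
  | cons a w ih =>
    rw [List.prod_cons]
    exact (h a (by simp)).mul (ih fun b hb => h b (by simp [hb]))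

theorem F1_of_SL {X : Set H} {m : ℕ} (h : m ∈ SL X) : F1 X := by
  obtain ⟨w, hw, rfl, -⟩ := h
  exact F1_prod fun a ha => (hw a ha).2

/-- A nonempty product of irreducibles is not `1`. -/
theorem SL_one_eq {m : ℕ} (h : m ∈ SL (1 : Set H)) : m = 0 := by
  obtain ⟨w, hw, hp, rfl⟩ := h
  rcases w with _ | ⟨a, w⟩
  · rfl
  · exfalso
    rw [List.prod_cons] at hp
    have hw1 : F1 w.prod := F1_prod fun b hb => (hw b (by simp [hb])).2
    have ha := hw a (by simp)
    apply ha.1.1
    apply Set.Subset.antisymm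
    · rw [← hp]; exact subset_mul_of_one_right hw1.2
    · intro x hx
      have : x = 1 := by simpa using hx
      rw [this]; exact ha.2.2

theorem SI_pair {x : H} (hx : x ≠ 1) : SI ({1, x} : Set H) := by
  constructor
  · intro h
    have : x ∈ (1 : Set H) := by rw [← h]; simp
    exact hx (by simpa using this)
  · intro U V hU hV h
    have hUX : U ⊆ ({1, x} : Set H) := by rw [h]; exact subset_mul_of_one_right hV
    have hVX : V ⊆ ({1, x} : Set H) := by rw [h]; exact subset_mul_of_one_left hU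
    by_cases hxU : x ∈ U
    · left
      apply Set.Subset.antisymm hUX
      rintro y (rfl | rfl)
      · exact hU
      · exact hxU
    · by_cases hxV : x ∈ V
      · right
        apply Set.Subset.antisymm hVX
        rintro y (rfl | rfl)
        · exact hV
        · exact hxV
      · exfalso
        have : x ∈ U * V := by rw [← h]; simp
        obtain ⟨u, hu, v, hv, huv⟩ := this
        have hu1 : u = 1 := by
          rcases hUX hu with h | h
          · exact h
          · exact absurd (h ▸ hu) hxU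
        have hv1 : v = 1 := by
          rcases hVX hv with h | h
          · exact h
          · exact absurd (h ▸ hv) hxV
        simp only [hu1, hv1, mul_one] at huv
        exact hx huv.symm

theorem F1_pair (x : H) : F1 ({1, x} : Set H) := ⟨by simp, by simp⟩

/-- There are irreducibles `a`, `c` such that `a * c = a` or `c * a = a`. -/
def Absorb (H : Type u) [Monoid H] : Prop :=
  ∃ a c : Set H, F1 a ∧ F1 c ∧ SI a ∧ SI c ∧ (a * c = a ∨ c * a = a)

theorem US_of_absorb (h : Absorb H) {k : ℕ} (hk : 1 ≤ k) : US H k = {m | 1 ≤ m} := by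
  obtain ⟨a, c, ha, hc, hsa, hsc, hac⟩ := h
  have key : ∀ j : ℕ, j + 1 ∈ SL a := by
    intro j
    rcases hac with h | h
    · have : a * c ^ j = a := by
        induction j with
        | zero => simp
        | succ j ih => rw [pow_succ, ← mul_assoc, ih, h]
      have h2 := SL_mul (SL_single hsa ha) (SL_pow hsc hc j)
      rw [this, add_comm] at h2
      exact h2
    · have : c ^ j * a = a := by
        induction j with
        | zero => simp
        | succ j ih => rw [pow_succ', mul_assoc, ih, h]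
      have h2 := SL_mul (SL_pow hsc hc j) (SL_single hsa ha)
      rw [this] at h2
      exact h2
  have key' : ∀ m, 1 ≤ m → m ∈ SL a := by
    intro m hm
    obtain ⟨j, rfl⟩ := Nat.exists_eq_add_of_le hm
    rw [add_comm]
    exact key j
  ext m
  constructor
  · rintro ⟨X, hX, hk', hm'⟩
    simp only [Set.mem_ofPred_eq]
    by_contra hm0
    have : m = 0 := by omega
    rw [this] at hm'
    rw [SL_zero_iff hm'] at hk'
    have := SL_one_eq hk'
    omega
  · intro hm
    exact ⟨a, ha, key' k hk, key' m hm⟩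

theorem not_mem_US_one (h : ¬ Absorb H) {X : Set H} (h1 : 1 ∈ SL X) {m : ℕ} (hm : m ∈ SL X) :
    m = 1 := by
  obtain ⟨hsX, hfX⟩ := SL_one_iff h1
  obtain ⟨w, hw, hp, rfl⟩ := hm
  rcases w with _ | ⟨c, w⟩
  · exact absurd (by simpa using hp.symm) hsX.1
  rcases w with _ | ⟨c', w⟩
  · rfl
  exfalso
  apply h
  have hc := hw c (by simp)
  have hc' := hw c' (by simp)
  have hw1 : F1 w.prod := F1_prod fun b hb => (hw b (by simp [hb])).2
  have hfw : F1 (c' * w.prod) := hc'.2.mul hw1
  rw [List.prod_cons, List.prod_cons] at hp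
  rcases hsX.2 c (c' * w.prod) hc.2.2 hfw.2 hp.symm with h1 | h1
  · refine ⟨X, c', hfX, hc'.2, hsX, hc'.1, Or.inl ?_⟩
    rw [h1] at hp
    apply Set.Subset.antisymm
    · intro y hy
      rw [← hp, ← mul_assoc]
      exact subset_mul_of_one_right hw1.2 hy
    · exact subset_mul_of_one_right hc'.2.2
  · refine ⟨X, c, hfX, hc.2, hsX, hc.1, Or.inr ?_⟩
    rw [h1] at hp
    exact hp

theorem two_le_of_mem_US (h : ¬ Absorb H) {k m : ℕ} (hk : 2 ≤ k) (hm : m ∈ US H k) : 2 ≤ m := by
  obtain ⟨X, hX, hkX, hmX⟩ := hm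
  by_contra hlt
  have : m = 0 ∨ m = 1 := by omega
  rcases this with rfl | rfl
  · rw [SL_zero_iff hmX] at hkX
    have := SL_one_eq hkX
    omega
  · have := not_mem_US_one h hmX hkX
    omega

/-- A sufficient condition for set-level irreducibility. -/
theorem SI_of {A : Set H} (E : Set H)
    (h : ∀ u ∈ A, ∀ v ∈ A, u ≠ 1 → v ≠ 1 → u * v ∈ A → u ∈ E ∧ v ∈ E)
    (w : H) (hw : w ∈ A)
    (hw1 : ∀ u v : H, (u = 1 ∨ u ∈ E) → (v = 1 ∨ v ∈ E) → u * v ≠ w) : SI A := by
  constructor
  · intro hA
    have : w = 1 := by rw [hA] at hw; simpa using hw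
    exact hw1 1 1 (Or.inl rfl) (Or.inl rfl) (by simp [this])
  · intro U V hU hV hUV
    by_contra hcon
    push Not at hcon
    have hUA : U ⊆ A := by rw [hUV]; exact subset_mul_of_one_right hV
    have hVA : V ⊆ A := by rw [hUV]; exact subset_mul_of_one_left hU
    have exU : ∃ u ∈ U, u ≠ 1 := by
      by_contra hno
      push Not at hno
      have : U = 1 := by
        apply Set.Subset.antisymm
        · intro u hu; simpa using hno u hu
        · intro u hu
          have : u = 1 := by simpa using hu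
          rw [this]; exact hU
      rw [this, one_mul] at hUV
      exact hcon.2 hUV.symm
    have exV : ∃ v ∈ V, v ≠ 1 := by
      by_contra hno
      push Not at hno
      have : V = 1 := by
        apply Set.Subset.antisymm
        · intro u hu; simpa using hno u hu
        · intro u hu
          have : u = 1 := by simpa using hu
          rw [this]; exact hV
      rw [this, mul_one] at hUV
      exact hcon.1 hUV.symm
    obtain ⟨u₀, hu₀, hu₀1⟩ := exU
    obtain ⟨v₀, hv₀, hv₀1⟩ := exV
    have hUV' : ∀ u ∈ U, ∀ v ∈ V, u * v ∈ A := by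
      intro u hu v hv
      rw [hUV]
      exact Set.mul_mem_mul hu hv
    rw [hUV] at hw
    obtain ⟨u, hu, v, hv, huv⟩ := hw
    refine hw1 u v ?_ ?_ huv
    · by_cases h1 : u = 1
      · exact Or.inl h1
      · exact Or.inr (h u (hUA hu) v₀ (hVA hv₀) h1 hv₀1 (hUV' u hu v₀ hv₀)).1
    · by_cases h1 : v = 1
      · exact Or.inl h1
      · exact Or.inr (h u₀ (hUA hu₀) v (hVA hv) hu₀1 h1 (hUV' u₀ hu₀ v hv)).2

theorem isInterval_of_eq_Ici {S : Set ℕ} (a : ℕ) (h : S = {m | a ≤ m}) : IsInterval S := by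
  refine ⟨a, ⊤, ?_⟩
  rw [h]
  ext x
  simp

theorem isInterval_of_eq_Icc {S : Set ℕ} (a b : ℕ) (h : S = {m | a ≤ m ∧ m ≤ b}) :
    IsInterval S := by
  refine ⟨a, b, ?_⟩
  rw [h]
  ext x
  simp

end Pool.Agent.R794.PM
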