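import Pool.Agent.R794.PM.Seven

/-!
# The unions of sets of minimal lengths of the monoid of order seven
-/

open scoped Pointwise

namespace Pool.Agent.R794.PM

universe u

theorem SMF_append_left {H : Type u} [Monoid H] {w₁ w₂ : List (Set H)} {X : Set H}
    (h : SMF (w₁ ++ w₂) X) : SMF w₁ w₁.prod := by
  refine ⟨⟨fun a ha => h.1.1 a (by simp [ha]), rfl⟩, ?_⟩
  rintro ⟨v, hv, hl, τ, hτ, hget⟩
  apply h.2
  refine ⟨v ++ w₂, ⟨?_, by rw [List.prod_append, hv.2, ← List.prod_append, h.1.2]⟩,
    by simp only [List.length_append]; omega,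
    fun i => if hi : i.1 < v.length then ⟨(τ ⟨i.1, hi⟩).1, by
        have := (τ ⟨i.1, hi⟩).2
        simp only [List.length_append]
        omega⟩
      else ⟨i.1 - v.length + w₁.length, by
        have := i.2
        simp only [List.length_append] at this ⊢
        omega⟩, ?_, ?_⟩
  · intro a ha
    rcases List.mem_append.1 ha with h1 | h1
    · exact hv.1 a h1
    · exact h.1.1 a (by simp [h1])
  · intro i j hij
    by_cases hi : i.1 < v.length
    · by_cases hj : j.1 < v.length
      · simp only [hi, hj, dif_pos, Fin.mk.injEq] at hij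
        have := hτ (Fin.ext hij)
        apply Fin.ext
        simpa using this
      · have := (τ ⟨i.1, hi⟩).2
        simp only [hi, hj, dif_pos, dif_neg, not_false_eq_true, Fin.mk.injEq] at hij
        omega
    · by_cases hj : j.1 < v.length
      · have := (τ ⟨j.1, hj⟩).2
        simp only [hi, hj, dif_pos, dif_neg, not_false_eq_true, Fin.mk.injEq] at hij
        omega
      · simp only [hi, hj, dif_neg, not_false_eq_true, Fin.mk.injEq] at hij
        apply Fin.ext
        omega
  · intro i
    by_cases hi : i.1 < v.length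
    · have h1 := hget ⟨i.1, hi⟩
      have h2 := (τ ⟨i.1, hi⟩).2
      simp only [hi, dif_pos, List.get_eq_getElem] at h1 ⊢
      rw [List.getElem_append_left hi, List.getElem_append_left h2]
      exact h1
    · simp only [hi, dif_neg, not_false_eq_true, List.get_eq_getElem]
      rw [List.getElem_append_right (by omega), List.getElem_append_right (by omega)]
      congr 1
      omega

namespace Seven

theorem not_SMF_of_short {L : List ℕ} (hL : ∀ a ∈ L, a < 64) {X : Set H7}
    {inj : List (List ℕ)}
    (hinj : ∀ l ∈ inj, l.Nodup ∧ l.length < L.length ∧ ∀ i ∈ l, i < L.length)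
    (hs : short inj L = true) : ¬ SMF (L.map toSet) X := by
  rintro ⟨⟨hw, hp⟩, hmin⟩
  unfold short at hs
  rw [List.any_eq_true] at hs
  obtain ⟨l, hl, he⟩ := hs
  obtain ⟨h1, h2, h3⟩ := hinj l hl
  have he' : prodM (l.map fun i => L.getD i 0) = prodM L := by simpa using he
  apply hmin
  have hmem : ∀ a ∈ l.map (fun i => L.getD i 0), a ∈ L := by
    intro a ha
    obtain ⟨i, hi, rfl⟩ := List.mem_map.1 ha
    have := h3 i hi
    rw [List.getD_eq_getElem _ _ this]
    exact List.getElem_mem this
  refine ⟨(l.map fun i => L.getD i 0).map toSet, ⟨?_, ?_⟩, by simpa using h2,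
    fun i => ⟨l.get ⟨i.1, by simpa using i.2⟩, by
      have h8 := h3 _ (List.get_mem l ⟨i.1, by simpa using i.2⟩)
      exact h8.trans_eq (List.length_map toSet).symm⟩, ?_, ?_⟩
  · intro a ha
    obtain ⟨b, hb, rfl⟩ := List.mem_map.1 ha
    exact hw _ (List.mem_map_of_mem (hmem b hb))
  · rw [prod_toSet _ fun a ha => hL a (hmem a ha), he', ← prod_toSet L hL, hp]
  · intro i j hij
    have h4 : l.get ⟨i.1, by simpa using i.2⟩ = l.get ⟨j.1, by simpa using j.2⟩ := by
      simpa using hij
    have h5 := List.nodup_iff_injective_get.1 h1 h4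
    apply Fin.ext
    simpa using h5
  · intro i
    have h6 : l[i.1]'(by simpa using i.2) < L.length := h3 _ (List.getElem_mem _)
    simp only [List.get_eq_getElem, List.getElem_map]
    rw [List.getD_eq_getElem _ _ h6]

theorem inj4_ok : ∀ l ∈ inj4, l.Nodup ∧ l.length < 4 ∧ ∀ i ∈ l, i < 4 := by decide

theorem inj3_ok : ∀ l ∈ inj3, l.Nodup ∧ l.length < 3 ∧ ∀ i ∈ l, i < 3 := by decide

/-- Minimal factorizations of length four exist only for `X0`. -/
theorem eq_X0_of_length_four {w : List (Set H7)} {X : Set H7} (h : SMF w X) (hl : w.length = 4) :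
    X = X0 := by
  obtain ⟨L, h1, h2, rfl⟩ := letters h.1.1
  rw [List.length_map] at hl
  obtain ⟨a, b, c, d, rfl⟩ : ∃ a b c d, L = [a, b, c, d] := by
    rcases L with _ | ⟨a, _ | ⟨b, _ | ⟨c, _ | ⟨d, _ | ⟨e, L⟩⟩⟩⟩⟩
    · simp at hl
    · simp at hl
    · simp at hl
    · simp at hl
    · exact ⟨a, b, c, d, rfl⟩
    · simp at hl
  have hc := check4
  simp only [List.all_eq_true] at hc
  have hc' := hc a (h1 a (by simp)) b (h1 b (by simp)) c (h1 c (by simp)) d (h1 d (by simp))
  rw [Bool.or_eq_true] at hc'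
  rcases hc' with h3 | h3
  · have h4 : prodM [a, b, c, d] = 61 := by simpa using h3
    have h5 := h.1.2
    rw [prod_toSet _ h2, h4] at h5
    exact h5.symm
  · exact absurd h (not_SMF_of_short h2 inj4_ok h3)

theorem not_length_three {w : List (Set H7)} (h : SMF w X0) (hl : w.length = 3) : False := by
  obtain ⟨L, h1, h2, rfl⟩ := letters h.1.1
  rw [List.length_map] at hl
  obtain ⟨a, b, c, rfl⟩ : ∃ a b c, L = [a, b, c] := by
    rcases L with _ | ⟨a, _ | ⟨b, _ | ⟨c, _ | ⟨d, L⟩⟩⟩⟩
    · simp at hl
    · simp at hl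
    · simp at hl
    · exact ⟨a, b, c, rfl⟩
    · simp at hl
  have hc := check3
  simp only [List.all_eq_true] at hc
  have hc' := hc a (h1 a (by simp)) b (h1 b (by simp)) c (h1 c (by simp))
  rw [Bool.or_eq_true] at hc'
  have h5 := h.1.2
  rw [prod_toSet _ h2] at h5
  have h6 := toSet_inj _ (prodM_lt _) _ (by norm_num) h5
  rcases hc' with h3 | h3
  · rw [h6] at h3
    simp at h3
  · exact absurd h (not_SMF_of_short h2 inj3_ok h3)

theorem SM_X0_subset {m : ℕ} (h : m ∈ SM X0) : m = 2 ∨ m = 4 := by
  obtain ⟨w, hw, rfl⟩ := h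
  by_cases h4 : 5 ≤ w.length
  · exfalso
    have h5 : (w.take 4).length = 4 := by simp; omega
    have h6 : SMF (w.take 4) (w.take 4).prod := by
      apply SMF_append_left (w₂ := w.drop 4) (X := X0)
      rwa [List.take_append_drop]
    have h7 := eq_X0_of_length_four h6 h5
    apply hw.2
    refine ⟨w.take 4, ⟨h6.1.1, h7⟩, by omega, fun i => ⟨i.1, by have := i.2; omega⟩, ?_, ?_⟩
    · intro i j hij
      apply Fin.ext
      simpa using hij
    · intro i
      simp
  · have h0 : w.length ≠ 0 := by
      intro h0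
      have := hw.1.2
      rw [List.length_eq_zero_iff.1 h0, List.prod_nil, ← toSet_zero] at this
      have := toSet_inj _ (by norm_num) _ (by norm_num) this
      omega
    have h1 : w.length ≠ 1 := by
      intro h1
      obtain ⟨a, rfl⟩ := List.length_eq_one_iff.1 h1
      have h2 := hw.1.2
      rw [List.prod_singleton] at h2
      have h3 := (hw.1.1 a (by simp)).1
      rw [h2] at h3
      have := SI_toSet (by norm_num) h3
      revert this
      decide
    have h3 : w.length ≠ 3 := fun h3 => not_length_three hw h3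
    omega

theorem SI_pow {m : ℕ} (h : m ∈ [4, 8, 16, 32, 52]) : SI (toSet m) ∧ F1 (toSet m) := by
  have h1 : m < 64 ∧ m ≠ 0 := by
    revert m
    decide
  exact ⟨SI_of_mask h1.1 h1.2 (irr_check m h), toSet_F1 m⟩

theorem two_mem : 2 ∈ SM X0 := by
  refine ⟨[52, 8].map toSet, ⟨⟨?_, ?_⟩, ?_⟩, rfl⟩
  · intro a ha
    simp only [List.map_cons, List.map_nil, List.mem_cons, List.not_mem_nil, or_false] at ha
    rcases ha with rfl | rfl
    · exact SI_pow (by simp)
    · exact SI_pow (by simp)
  · rw [prod_toSet _ (by decide)]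
    have : prodM [52, 8] = 61 := by decide +kernel
    rw [this]
    rfl
  · rintro ⟨v, hv, hl, τ, hτ, hget⟩
    have hl' : v.length < 2 := by simpa using hl
    rcases v with _ | ⟨a, _ | ⟨b, v⟩⟩
    · have := hv.2
      rw [List.prod_nil, ← toSet_zero] at this
      have := toSet_inj _ (by norm_num) _ (by norm_num) this
      omega
    · have h1 := hv.2
      rw [List.prod_singleton] at h1
      have h3 := (hv.1 a (by simp)).1
      rw [h1] at h3
      have := SI_toSet (by norm_num) h3
      revert this
      decide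
    · simp only [List.length_cons] at hl'
      omega

theorem four_check3 : ∀ i < 4, ∀ j < 4, ∀ k < 4, (i ≠ j ∧ i ≠ k ∧ j ≠ k) →
    prodM [[16, 32, 4, 8].getD i 0, [16, 32, 4, 8].getD j 0, [16, 32, 4, 8].getD k 0] ≠ 61 := by
  decide +kernel

theorem four_check2 : ∀ i < 4, ∀ j < 4, i ≠ j →
    prodM [[16, 32, 4, 8].getD i 0, [16, 32, 4, 8].getD j 0] ≠ 61 := by
  decide +kernel

theorem four_check1 : ∀ i < 4, prodM [[16, 32, 4, 8].getD i 0] ≠ 61 := by
  decide +kernel

theorem four_mem : 4 ∈ SM X0 := by
  have hlt : ∀ i, [16, 32, 4, 8].getD i 0 < 64 := by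
    intro i
    rcases i with _ | _ | _ | _ | i <;> simp
  refine ⟨[16, 32, 4, 8].map toSet, ⟨⟨?_, ?_⟩, ?_⟩, rfl⟩
  · intro a ha
    simp only [List.map_cons, List.map_nil, List.mem_cons, List.not_mem_nil, or_false] at ha
    rcases ha with rfl | rfl | rfl | rfl <;> exact SI_pow (by simp)
  · rw [prod_toSet _ (by decide)]
    have : prodM [16, 32, 4, 8] = 61 := by decide +kernel
    rw [this]
    rfl
  · rintro ⟨v, hv, hl, τ, hτ, hget⟩
    have hl' : v.length < 4 := by simpa using hl
    -- the letters of `v`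
    have hget' : ∀ i : Fin v.length, v.get i = toSet ([16, 32, 4, 8].getD (τ i).1 0) := by
      intro i
      rw [hget i]
      have h1 : (τ i).1 < [16, 32, 4, 8].length := by
        have := (τ i).2
        simpa using this
      simp only [List.get_eq_getElem, List.getElem_map]
      rw [List.getD_eq_getElem _ _ h1]
    have hτlt : ∀ i : Fin v.length, (τ i).1 < 4 := by
      intro i
      have := (τ i).2
      simpa using this
    have hval : ∀ i j : Fin v.length, i ≠ j → (τ i).1 ≠ (τ j).1 := by
      intro i j hij h1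
      exact hij (hτ (Fin.ext h1))
    rcases v with _ | ⟨a, _ | ⟨b, _ | ⟨c, _ | ⟨d, v⟩⟩⟩⟩
    · have := hv.2
      rw [List.prod_nil, ← toSet_zero] at this
      have := toSet_inj _ (by norm_num) _ (by norm_num) this
      omega
    · have e0 : a = _ := hget' ⟨0, by simp⟩
      have h1 := hv.2
      rw [e0] at h1
      have h2 := prod_toSet [[16, 32, 4, 8].getD (τ ⟨0, by simp⟩).1 0] (by simpa using hlt _)
      simp only [List.map_cons, List.map_nil] at h2
      rw [h2] at h1
      exact four_check1 _ (hτlt _) (toSet_inj _ (prodM_lt _) _ (by norm_num) h1)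
    · have e0 : a = _ := hget' ⟨0, by simp⟩
      have e1 : b = _ := hget' ⟨1, by simp⟩
      have h1 := hv.2
      rw [e0, e1] at h1
      have h2 := prod_toSet [[16, 32, 4, 8].getD (τ ⟨0, by simp⟩).1 0,
        [16, 32, 4, 8].getD (τ ⟨1, by simp⟩).1 0] (by
          intro x hx
          simp only [List.mem_cons, List.not_mem_nil, or_false] at hx
          rcases hx with rfl | rfl <;> exact hlt _)
      simp only [List.map_cons, List.map_nil] at h2
      rw [h2] at h1
      exact four_check2 _ (hτlt _) _ (hτlt _) (hval _ _ (by simp))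
        (toSet_inj _ (prodM_lt _) _ (by norm_num) h1)
    · have e0 : a = _ := hget' ⟨0, by simp⟩
      have e1 : b = _ := hget' ⟨1, by simp⟩
      have e2 : c = _ := hget' ⟨2, by simp⟩
      have h1 := hv.2
      rw [e0, e1, e2] at h1
      have h2 := prod_toSet [[16, 32, 4, 8].getD (τ ⟨0, by simp⟩).1 0,
        [16, 32, 4, 8].getD (τ ⟨1, by simp⟩).1 0, [16, 32, 4, 8].getD (τ ⟨2, by simp⟩).1 0] (by
          intro x hx
          simp only [List.mem_cons, List.not_mem_nil, or_false] at hx
          rcases hx with rfl | rfl | rfl <;> exact hlt _)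
      simp only [List.map_cons, List.map_nil] at h2
      rw [h2] at h1
      exact four_check3 _ (hτlt _) _ (hτlt _) _ (hτlt _)
        ⟨hval _ _ (by simp), hval _ _ (by simp), hval _ _ (by simp)⟩
        (toSet_inj _ (prodM_lt _) _ (by norm_num) h1)
    · simp only [List.length_cons] at hl'
      omega

theorem union_four : unionMinLengths (powerMonoid H7) 4 = {2, 4} := by
  ext m
  constructor
  · rintro ⟨X, h4, hm⟩
    rw [minLengthSet_eq] at h4 hm
    obtain ⟨w, hw, hl⟩ := h4
    rw [eq_X0_of_length_four hw hl] at hm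
    rcases SM_X0_subset hm with h | h <;> simp [h]
  · intro hm
    refine ⟨⟨X0, toSet_F1 61⟩, ?_, ?_⟩
    · rw [minLengthSet_eq]; exact four_mem
    · rw [minLengthSet_eq]
      rcases hm with h | h
      · rw [h]; exact two_mem
      · rw [Set.mem_singleton_iff.1 h]; exact four_mem

theorem not_interval : ¬ IsInterval (unionMinLengths (powerMonoid H7) 4) := by
  rintro ⟨a, b, h⟩
  rw [union_four] at h
  have h2 : (2 : ℕ) ∈ ({2, 4} : Set ℕ) := by simp
  have h4 : (4 : ℕ) ∈ ({2, 4} : Set ℕ) := by simp
  rw [h] at h2 h4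
  have h3 : (3 : ℕ) ∈ ({2, 4} : Set ℕ) := by
    rw [h]
    exact ⟨h2.1.trans (by norm_num), le_trans (by norm_num) h4.2⟩
  simp at h3

theorem card_H7 : Nat.card H7 = 7 := by
  rw [Nat.card_eq_fintype_card]
  exact Fintype.card_fin 7

end Seven

end Pool.Agent.R794.PM
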