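import Pool.Agent.R794.PM.Five

/-!
# The group of order five
-/

open scoped Pointwise

namespace Pool.Agent.R794.PM

universe u

theorem comb5 : ∀ a b c d : Bool,
    (2 ≤ a.toNat + b.toNat + c.toNat + d.toNat) → (a.toNat + b.toNat + c.toNat + d.toNat ≤ 3) →
    ∃ u : Fin 5, u ≠ 0 ∧ ![true, a, b, c, d] u = true ∧
      ∀ k : Fin 5, ![true, a, b, c, d] k = true →
        (![true, a, b, c, d] (k + u) = true ∨ ![true, a, b, c, d] (k - u) = true) := by
  decide

section Group

variable {G : Type u} [Group G] (h5 : ∀ g : G, g ^ 5 = 1) {x : G} (hx : x ≠ 1)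
  (hall : ∀ g : G, ∃ i : ℕ, g = x ^ i)

include hall in
theorem comm5 (g h : G) : g * h = h * g := by
  obtain ⟨i, rfl⟩ := hall g
  obtain ⟨j, rfl⟩ := hall h
  rw [← pow_add, ← pow_add, add_comm]

include h5 hall in
theorem all5 (g : G) : ∃ i : ℕ, i < 5 ∧ g = x ^ i := by
  obtain ⟨i, rfl⟩ := hall g
  exact ⟨i % 5, Nat.mod_lt _ (by norm_num), pow_mod5 h5 x i⟩

include h5 hx hall in
theorem card5 : Nat.card G = 5 := by
  have : Fact (Nat.Prime 5) := ⟨by norm_num⟩
  have ho : orderOf x = 5 := orderOf_eq_prime (h5 x) hx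
  rw [← ho, ← Nat.card_zpowers]
  have : Subgroup.zpowers x = ⊤ := by
    rw [eq_top_iff]
    intro g _
    obtain ⟨i, rfl⟩ := hall g
    exact Subgroup.pow_mem _ (Subgroup.mem_zpowers x) i
  rw [this]
  exact (Nat.card_congr Subgroup.topEquiv.toEquiv).symm

include h5 hx hall in
/-- Irreducibles are two-element sets. -/
theorem SI_card {A : Set G} (hA : SI A) (hA1 : (1 : G) ∈ A) {g h : G} (hg : g ∈ A) (hh : h ∈ A)
    (hg1 : g ≠ 1) (hh1 : h ≠ 1) : g = h := by
  classical
  by_contra hgh
  by_cases huniv : A = Set.univ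
  · -- the whole group is reducible
    have hprod : A = ({1, x} : Set G) * PI x 3 := by
      rw [huniv]
      symm
      rw [Set.eq_univ_iff_forall]
      intro z
      obtain ⟨i, hi, rfl⟩ := all5 h5 hall z
      by_cases hi4 : i ≤ 3
      · exact ⟨1, by simp, x ^ i, ⟨i, hi4, rfl⟩, by simp⟩
      · have : i = 4 := by omega
        subst this
        exact ⟨x, by simp, x ^ 3, ⟨3, by omega, rfl⟩, by simp [← pow_succ']⟩
    rcases hA.2 _ _ (by simp) (PI_F1 x 3).2 hprod with h1 | h1
    · have : x ^ 2 ∈ ({1, x} : Set G) := by rw [h1, huniv]; trivial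
      rcases this with h2 | h2
      · have := inj5 h5 hx (i := 2) (j := 0) (by simpa using h2)
        omega
      · have := inj5 h5 hx (i := 2) (j := 1) (by simpa using h2)
        omega
    · have : x ^ 4 ∈ PI x 3 := by rw [h1, huniv]; trivial
      obtain ⟨i, hi, e⟩ := this
      have := inj5 h5 hx e
      omega
  · -- use the combinatorial lemma
    have hmem : ∀ i : ℕ, i < 5 → x ^ i ∈ A →
        ((i = 0) ∨ (i = 1 ∧ x ^ 1 ∈ A) ∨ (i = 2 ∧ x ^ 2 ∈ A) ∨ (i = 3 ∧ x ^ 3 ∈ A) ∨
          (i = 4 ∧ x ^ 4 ∈ A)) := by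
      intro i hi hm
      have : i = 0 ∨ i = 1 ∨ i = 2 ∨ i = 3 ∨ i = 4 := by omega
      rcases this with rfl | rfl | rfl | rfl | rfl
      · simp
      · right; left; exact ⟨rfl, hm⟩
      · right; right; left; exact ⟨rfl, hm⟩
      · right; right; right; left; exact ⟨rfl, hm⟩
      · right; right; right; right; exact ⟨rfl, hm⟩
    have hF : ∀ k : Fin 5, (![true, decide (x ^ 1 ∈ A), decide (x ^ 2 ∈ A), decide (x ^ 3 ∈ A),
        decide (x ^ 4 ∈ A)] k = true ↔ x ^ (k : ℕ) ∈ A) := by
      intro k
      fin_cases k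
      · simpa using hA1
      · simp
      · simp
      · simp
      · simp
    have hxk : ∀ k l : Fin 5, x ^ ((k + l : Fin 5) : ℕ) = x ^ (k : ℕ) * x ^ (l : ℕ) := by
      intro k l
      rw [Fin.val_add, ← pow_mod5 h5, pow_add]
    obtain ⟨u, hu0, huA, hu⟩ := comb5 (decide (x ^ 1 ∈ A)) (decide (x ^ 2 ∈ A))
      (decide (x ^ 3 ∈ A)) (decide (x ^ 4 ∈ A)) (by
        obtain ⟨i, hi, rfl⟩ := all5 h5 hall g
        obtain ⟨j, hj, rfl⟩ := all5 h5 hall h
        have hij : i ≠ j := by rintro rfl; exact hgh rfl
        have hi0 : i ≠ 0 := by rintro rfl; simp at hg1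
        have hj0 : j ≠ 0 := by rintro rfl; simp at hh1
        rcases hmem i hi hg with h1 | ⟨rfl, h1⟩ | ⟨rfl, h1⟩ | ⟨rfl, h1⟩ | ⟨rfl, h1⟩
        · exact absurd h1 hi0
        all_goals
          rcases hmem j hj hh with h2 | ⟨rfl, h2⟩ | ⟨rfl, h2⟩ | ⟨rfl, h2⟩ | ⟨rfl, h2⟩
          · exact absurd h2 hj0
          all_goals first
            | exact absurd rfl hij
            | (rw [decide_eq_true h1, decide_eq_true h2]; simp only [Bool.toNat_true]; omega))
      (by
        by_contra hcon
        apply huniv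
        rw [Set.eq_univ_iff_forall]
        intro z
        obtain ⟨i, hi, rfl⟩ := all5 h5 hall z
        have b1 := Bool.toNat_le (decide (x ^ 1 ∈ A))
        have b2 := Bool.toNat_le (decide (x ^ 2 ∈ A))
        have b3 := Bool.toNat_le (decide (x ^ 3 ∈ A))
        have b4 := Bool.toNat_le (decide (x ^ 4 ∈ A))
        have t1 : (decide (x ^ 1 ∈ A)).toNat = 1 := by omega
        have t2 : (decide (x ^ 2 ∈ A)).toNat = 1 := by omega
        have t3 : (decide (x ^ 3 ∈ A)).toNat = 1 := by omega
        have t4 : (decide (x ^ 4 ∈ A)).toNat = 1 := by omega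
        have s1 : x ^ 1 ∈ A := by simpa using t1
        have s2 : x ^ 2 ∈ A := by simpa using t2
        have s3 : x ^ 3 ∈ A := by simpa using t3
        have s4 : x ^ 4 ∈ A := by simpa using t4
        have : i = 0 ∨ i = 1 ∨ i = 2 ∨ i = 3 ∨ i = 4 := by omega
        rcases this with rfl | rfl | rfl | rfl | rfl
        · simpa using hA1
        · exact s1
        · exact s2
        · exact s3
        · exact s4)
    rw [hF] at huA
    simp only [hF] at hu
    -- the factor
    have hsub : ∀ k : Fin 5, x ^ ((k - u : Fin 5) : ℕ) * x ^ (u : ℕ) = x ^ (k : ℕ) := by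
      intro k
      rw [← hxk, sub_add_cancel]
    have hxu1 : x ^ (u : ℕ) ≠ 1 := by
      intro h1
      have := inj5 h5 hx (i := (u : ℕ)) (j := 0) (by simpa using h1)
      apply hu0
      apply Fin.ext
      have := u.2
      simp only [Fin.val_zero]
      omega
    have hprod : A = ({1, x ^ (u : ℕ)} : Set G) * {v | v ∈ A ∧ v * x ^ (u : ℕ) ∈ A} := by
      ext z
      constructor
      · intro hz
        obtain ⟨i, hi, rfl⟩ := all5 h5 hall z
        rcases hu ⟨i, hi⟩ hz with h1 | h1
        · rw [hxk] at h1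
          exact ⟨1, by simp, x ^ i, ⟨hz, h1⟩, by simp⟩
        · refine ⟨x ^ (u : ℕ), by simp, _, ⟨h1, ?_⟩, ?_⟩
          · rw [hsub]; exact hz
          · simp only
            rw [comm5 hall, hsub]
      · rintro ⟨a, (rfl | rfl), v, ⟨hv1, hv2⟩, rfl⟩
        · simpa using hv1
        · simp only
          rw [comm5 hall]
          exact hv2
    rcases hA.2 _ _ (by simp) (show (1 : G) ∈ {v | v ∈ A ∧ v * x ^ (u : ℕ) ∈ A} from
      ⟨hA1, by simpa using huA⟩) hprod with h1 | h1
    · -- `A` would have two elements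
      clear hprod
      rw [← h1] at hg hh
      rcases hg with hg | hg
      · exact hg1 hg
      rcases hh with hh | hh
      · exact hh1 hh
      apply hgh
      rw [hg, hh]
    · -- `A` would be everything
      apply huniv
      rw [Set.eq_univ_iff_forall]
      have hstep : ∀ n : ℕ, (x ^ (u : ℕ)) ^ n ∈ A := by
        intro n
        induction n with
        | zero => simpa using hA1
        | succ n ih =>
          rw [← h1] at ih
          rw [pow_succ]
          exact ih.2
      intro z
      obtain ⟨i, hi, rfl⟩ := all5 h5 hall z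
      -- `x ^ i` is a power of `x ^ u`
      have hu' : (u : ℕ) = 1 ∨ (u : ℕ) = 2 ∨ (u : ℕ) = 3 ∨ (u : ℕ) = 4 := by
        have h2 := u.2
        have h3 : (u : ℕ) ≠ 0 := by
          intro h3
          apply hu0
          apply Fin.ext
          simpa using h3
        omega
      have : ∃ n : ℕ, ((u : ℕ) * n) % 5 = i % 5 := by
        rcases hu' with h | h | h | h <;> rw [h]
        · exact ⟨i, by omega⟩
        · exact ⟨3 * i, by omega⟩
        · exact ⟨2 * i, by omega⟩
        · exact ⟨4 * i, by omega⟩
      obtain ⟨n, hn⟩ := this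
      have h4 := hstep n
      rw [← pow_mul, pow_mod5 h5, hn, ← pow_mod5 h5] at h4
      exact h4

include h5 hx hall in
theorem grow (w : List (Set G)) (hw : ∀ a ∈ w, SI a ∧ F1 a) :
    w.prod = Set.univ ∨ w.length + 1 ≤ (w.prod).ncard := by
  have hfin : Finite G := by
    have := card5 h5 hx hall
    exact Nat.finite_of_card_ne_zero (by omega)
  induction w with
  | nil =>
    right
    have : ((1 : Set G)).ncard = 1 := Set.ncard_singleton (1 : G)
    simp [this]
  | cons a w ih =>
    have ha := hw a (by simp)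
    have hw' : ∀ b ∈ w, SI b ∧ F1 b := fun b hb => hw b (by simp [hb])
    have hsub : w.prod ⊆ (a :: w).prod := by
      rw [List.prod_cons]
      exact subset_mul_of_one_left ha.2.2
    rcases ih hw' with h | h
    · left
      rw [h] at hsub
      exact Set.univ_subset_iff.1 hsub
    · by_cases heq : w.prod = (a :: w).prod
      · left
        rw [← heq]
        -- pick `g ≠ 1` in `a`
        obtain ⟨g, hg, hg1⟩ : ∃ g ∈ a, g ≠ 1 := by
          by_contra hno
          push Not at hno
          apply ha.1.1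
          apply Set.Subset.antisymm
          · intro u hu; simpa using hno u hu
          · intro u hu
            have : u = 1 := by simpa using hu
            rw [this]; exact ha.2.2
        have hP1 : (1 : G) ∈ w.prod := (F1_prod fun b hb => (hw' b hb).2).2
        have hstep : ∀ n : ℕ, g ^ n ∈ w.prod := by
          intro n
          induction n with
          | zero => simpa using hP1
          | succ n ih =>
            rw [heq, List.prod_cons, pow_succ']
            exact Set.mul_mem_mul hg ih
        rw [Set.eq_univ_iff_forall]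
        intro z
        obtain ⟨u, hu, rfl⟩ := all5 h5 hall g
        obtain ⟨i, hi, rfl⟩ := all5 h5 hall z
        have hu' : u = 1 ∨ u = 2 ∨ u = 3 ∨ u = 4 := by
          have h3 : u ≠ 0 := by
            rintro rfl
            simp at hg1
          omega
        have : ∃ n : ℕ, (u * n) % 5 = i % 5 := by
          rcases hu' with h | h | h | h <;> rw [h]
          · exact ⟨i, by omega⟩
          · exact ⟨3 * i, by omega⟩
          · exact ⟨2 * i, by omega⟩
          · exact ⟨4 * i, by omega⟩
        obtain ⟨n, hn⟩ := this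
        have h4 := hstep n
        rw [← pow_mul, pow_mod5 h5, hn, ← pow_mod5 h5] at h4
        exact h4
      · right
        have hss : w.prod ⊂ (a :: w).prod := lt_of_le_of_ne hsub heq
        have := Set.ncard_lt_ncard hss (Set.toFinite _)
        simp only [List.length_cons]
        omega

include h5 hx hall in
theorem SL_ge_four {X : Set G} {m : ℕ} (hm : 4 ≤ m) (h : m ∈ SL X) : X = Set.univ := by
  have hfin : Finite G := by
    have := card5 h5 hx hall
    exact Nat.finite_of_card_ne_zero (by omega)
  obtain ⟨w, hw, rfl, rfl⟩ := h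
  rcases grow h5 hx hall w hw with h | h
  · exact h
  · apply Set.eq_of_subset_of_ncard_le (Set.subset_univ _)
    rw [Set.ncard_univ, card5 h5 hx hall]
    omega

include h5 hx hall in
theorem two_not_mem : 2 ∉ SL (Set.univ : Set G) := by
  have hfin : Finite G := by
    have := card5 h5 hx hall
    exact Nat.finite_of_card_ne_zero (by omega)
  rintro ⟨w, hw, hp, hl⟩
  obtain ⟨a, b, rfl⟩ := List.length_eq_two.1 hl
  have ha := hw a (by simp)
  have hb := hw b (by simp)
  have hform : ∀ a : Set G, SI a → F1 a → ∃ g : G, a ⊆ {1, g} := by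
    intro a ha hf
    by_cases h : ∃ g ∈ a, g ≠ 1
    · obtain ⟨g, hg, hg1⟩ := h
      refine ⟨g, fun z hz => ?_⟩
      by_cases hz1 : z = 1
      · simp [hz1]
      · right
        exact SI_card h5 hx hall ha hf.2 hz hg hz1 hg1
    · push Not at h
      exact ⟨1, fun z hz => by simp [h z hz]⟩
  obtain ⟨g, hg⟩ := hform a ha.1 ha.2
  obtain ⟨h, hh⟩ := hform b hb.1 hb.2
  simp only [List.prod_cons, List.prod_nil, mul_one] at hp
  have hsub : (Set.univ : Set G) ⊆ {1, g, h, g * h} := by
    rw [← hp]
    rintro _ ⟨u, hu, v, hv, rfl⟩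
    rcases hg hu with rfl | rfl <;> rcases hh hv with rfl | rfl <;> simp
  have h1 := Set.ncard_le_ncard hsub (Set.toFinite _)
  rw [Set.ncard_univ, card5 h5 hx hall] at h1
  have h2 : ({1, g, h, g * h} : Set G).ncard ≤ 4 := by
    have := Set.ncard_insert_le (1 : G) {g, h, g * h}
    have := Set.ncard_insert_le g {h, g * h}
    have := Set.ncard_insert_le h {g * h}
    have := Set.ncard_singleton (g * h)
    omega
  omega

include h5 hx hall in
theorem mem_univ5 {m : ℕ} (hm : 3 ≤ m) : m ∈ SL (Set.univ : Set G) := by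
  have hx2 : x ^ 2 ≠ 1 := by
    intro h
    have := inj5 h5 hx (i := 2) (j := 0) (by simpa using h)
    omega
  have h1 : (Set.univ : Set G) = {1, x} ^ (m - 1) * {1, x ^ 2} := by
    symm
    rw [Set.eq_univ_iff_forall]
    intro z
    obtain ⟨i, hi, rfl⟩ := all5 h5 hall z
    have hp : ∀ j k : ℕ, k ≤ j → x ^ k ∈ ({1, x} : Set G) ^ j := by
      intro j
      induction j with
      | zero => intro k hk; have : k = 0 := by omega
                subst this; simp
      | succ j ih =>
        intro k hk
        rw [pow_succ]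
        by_cases hk' : k ≤ j
        · exact ⟨x ^ k, ih k hk', 1, by simp, by simp⟩
        · have : k = j + 1 := by omega
          subst this
          exact ⟨x ^ j, ih j (le_refl _), x, by simp, by simp [pow_succ]⟩
    by_cases h2 : i ≤ 2
    · exact ⟨x ^ i, hp _ _ (by omega), 1, by simp, by simp⟩
    · refine ⟨x ^ (i - 2), hp _ _ (by omega), x ^ 2, by simp, ?_⟩
      simp only [← pow_add]
      congr 1
      omega
  rw [h1]
  have h2 := SL_mul (SL_pow (SI_pair hx) (F1_pair x) (m - 1)) (SL_single (SI_pair hx2) (F1_pair _))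
  have : m - 1 + 1 = m := by omega
  rwa [this] at h2

include h5 hx hall in
theorem PI3_lengths : 2 ∈ SL (PI x 3) ∧ 3 ∈ SL (PI x 3) := by
  have hx2 : x ^ 2 ≠ 1 := by
    intro h
    have := inj5 h5 hx (i := 2) (j := 0) (by simpa using h)
    omega
  constructor
  · have h1 : PI x 3 = {1, x} * {1, x ^ 2} := by
      ext z
      constructor
      · rintro ⟨i, hi, rfl⟩
        have : i = 0 ∨ i = 1 ∨ i = 2 ∨ i = 3 := by omega
        rcases this with rfl | rfl | rfl | rfl
        · exact ⟨1, by simp, 1, by simp, by simp⟩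
        · exact ⟨x, by simp, 1, by simp, by simp⟩
        · exact ⟨1, by simp, x ^ 2, by simp, by simp⟩
        · exact ⟨x, by simp, x ^ 2, by simp, by simp only [← pow_succ']⟩
      · rintro ⟨a, (rfl | rfl), b, (rfl | rfl), rfl⟩
        · exact ⟨0, by omega, by simp⟩
        · exact ⟨2, by omega, by simp⟩
        · exact ⟨1, by omega, by simp⟩
        · exact ⟨3, by omega, by simp only [← pow_succ']⟩
    rw [h1]
    exact SL_mul (m := 1) (n := 1) (SL_single (SI_pair hx) (F1_pair x))
      (SL_single (SI_pair hx2) (F1_pair _))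
  · have h1 := SL_pow (SI_pair hx) (F1_pair x) 3
    have h2 := PI_mul_pair_pow (x := x) 0 3
    have h3 : PI x 0 = 1 := by
      ext z
      constructor
      · rintro ⟨i, hi, rfl⟩
        have : i = 0 := by omega
        subst this; simp
      · intro hz
        have : z = 1 := by simpa using hz
        subst this
        exact ⟨0, le_refl _, by simp⟩
    rw [h3, one_mul] at h2
    rwa [h2] at h1

include h5 hx hall in
theorem US5_two (hab : ¬ Absorb G) : US G 2 = {m | 2 ≤ m ∧ m ≤ 3} := by
  ext m
  constructor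
  · intro hm
    refine ⟨two_le_of_mem_US hab (le_refl 2) hm, ?_⟩
    by_contra hcon
    obtain ⟨X, hX, h2, hm⟩ := hm
    rw [SL_ge_four h5 hx hall (by omega) hm] at h2
    exact two_not_mem h5 hx hall h2
  · rintro ⟨h1, h2⟩
    have : m = 2 ∨ m = 3 := by omega
    rcases this with rfl | rfl
    · exact ⟨_, PI_F1 x 3, (PI3_lengths h5 hx hall).1, (PI3_lengths h5 hx hall).1⟩
    · exact ⟨_, PI_F1 x 3, (PI3_lengths h5 hx hall).1, (PI3_lengths h5 hx hall).2⟩

include h5 hx hall in
theorem F1_univ5 : F1 (Set.univ : Set G) := by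
  have hfin : Finite G := by
    have := card5 h5 hx hall
    exact Nat.finite_of_card_ne_zero (by omega)
  exact ⟨Set.toFinite _, trivial⟩

include h5 hx hall in
theorem US5_three (hab : ¬ Absorb G) : US G 3 = {m | 2 ≤ m} := by
  ext m
  constructor
  · intro hm
    exact two_le_of_mem_US hab (by omega) hm
  · intro h1
    simp only [Set.mem_ofPred_eq] at h1
    by_cases h2 : m = 2
    · subst h2
      exact ⟨_, PI_F1 x 3, (PI3_lengths h5 hx hall).2, (PI3_lengths h5 hx hall).1⟩
    · exact ⟨_, F1_univ5 h5 hx hall, mem_univ5 h5 hx hall (le_refl 3),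
        mem_univ5 h5 hx hall (by omega)⟩

include h5 hx hall in
theorem US5_ge_four (hab : ¬ Absorb G) {k : ℕ} (hk : 4 ≤ k) : US G k = {m | 3 ≤ m} := by
  ext m
  constructor
  · intro hm
    have h2 := two_le_of_mem_US hab (by omega) hm
    simp only [Set.mem_ofPred_eq]
    by_contra hcon
    have : m = 2 := by omega
    subst this
    obtain ⟨X, hX, h3, h4⟩ := hm
    rw [SL_ge_four h5 hx hall hk h3] at h4
    exact two_not_mem h5 hx hall h4
  · intro h1
    simp only [Set.mem_ofPred_eq] at h1
    exact ⟨_, F1_univ5 h5 hx hall, mem_univ5 h5 hx hall (by omega), mem_univ5 h5 hx hall h1⟩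

end Group

end Pool.Agent.R794.PM
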